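import Pool.Agent.Q287.Ear.Check2

/-!
# The explicit ball satisfies the criterion
-/

namespace Pool.Q287.Ear

open Relation

lemma inter_card (i j : Fin 165) :
    (DD.fc i ∩ DD.fc j).card = ((LL i.val).filter (· ∈ LL j.val)).length := by
  have h : DD.fc i ∩ DD.fc j = ((LL i.val).filter (· ∈ LL j.val)).toFinset := by
    ext z
    simp [DD]
  rw [h, List.toFinset_card_of_nodup ((ck_nodup i).filter _)]

lemma nb_iff (i j : Fin 165) : DD.Nb i j ↔ (j ≠ i ∧ j ∈ nbT i) := by
  rw [← ck_nb i j]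
  unfold Lab.Nb NbL
  rw [inter_card]

lemma mem_fc (i : Fin 165) (z : ℕ) : z ∈ DD.fc i ↔ z ∈ LL i.val := by
  simp [DD]

lemma mem_W (z : ℕ) : z ∈ DD.W ↔ z ∈ Wl := by
  simp [DD]

lemma mem_nbT (i j : Fin 165) : j ∈ nbT i ↔ ∃ k < 4, j.val = nn i.val k := by
  simp only [nbT, List.mem_cons, List.not_mem_nil, or_false, Fin.ext_iff, nbF_val]
  constructor
  · rintro (h | h | h | h)
    · exact ⟨0, by omega, h⟩
    · exact ⟨1, by omega, h⟩
    · exact ⟨2, by omega, h⟩
    · exact ⟨3, by omega, h⟩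
  · rintro ⟨k, hk, h⟩
    rcases (by omega : k = 0 ∨ k = 1 ∨ k = 2 ∨ k = 3) with e | e | e | e
    · rw [e] at h; exact Or.inl h
    · rw [e] at h; exact Or.inr (Or.inl h)
    · rw [e] at h; exact Or.inr (Or.inr (Or.inl h))
    · rw [e] at h; exact Or.inr (Or.inr (Or.inr h))

lemma beq_false_of_ne {a b : ℕ} (h : a ≠ b) : Nat.beq a b = false := by
  rw [← Bool.not_eq_true]; intro hh; exact h (Nat.eq_of_beq_eq_true hh)

lemma inLf {i x : ℕ} : inL i x = false ↔ x ∉ LL i := by
  rw [← inL_iff, Bool.not_eq_true]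

lemma shr_of {i j : Fin 165} {k : ℕ} (hk : k < 4) (hj : j.val = nn i.val k) (hne : j ≠ i) :
    ∀ l < 4, (l = k → vv i.val l ∉ LL j.val) ∧ (l ≠ k → vv i.val l ∈ LL j.val) := by
  intro l hl
  have h := allB_iff (allB_iff ck_shr i.val i.isLt) k hk
  rw [frc_eq, ← hj, beq_false_of_ne (fun h => hne (Fin.ext h)), Bool.false_or] at h
  have h2 := allB_iff h l hl
  refine ⟨fun hlk => ?_, fun hlk => ?_⟩
  · subst hlk
    have : Nat.beq l l = true := Nat.beq_refl l
    rw [if_pos this] at h2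
    rw [← inLf]; simpa using h2
  · rw [if_neg (by rw [beq_false_of_ne hlk]; simp)] at h2
    rwa [inL_iff] at h2

lemma vv_mem (i l : ℕ) (hl : l < 4) : vv i l ∈ LL i := by
  rw [LL_eq]; interval_cases l <;> simp

lemma mem_LL {i x : ℕ} : x ∈ LL i ↔ ∃ l < 4, x = vv i l := by
  rw [LL_eq]
  simp only [List.mem_cons, List.not_mem_nil, or_false]
  constructor
  · rintro (h | h | h | h)
    · exact ⟨0, by omega, h⟩
    · exact ⟨1, by omega, h⟩
    · exact ⟨2, by omega, h⟩
    · exact ⟨3, by omega, h⟩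
  · rintro ⟨l, hl, h⟩
    interval_cases l <;> tauto

lemma vv_lt (i l : ℕ) : vv i l < 64 := Nat.mod_lt _ (by norm_num)

lemma inW_iff {x : ℕ} (hx : x < 64) : inW x = true ↔ x ∈ Wl := by
  have h := allB_iff Wm_iff x hx
  simp only [beq_iff_eq] at h
  unfold inW
  rw [h]
  simp

/-- a list of small numbers comes from a list of `Fin` -/
lemma lift_list : ∀ l : List ℕ, (∀ y ∈ l, y < 165) → ∃ l' : List (Fin 165),
    l'.map (fun y => y.val) = l
  | [], _ => ⟨[], rfl⟩
  | y :: l, h => by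
    obtain ⟨l', hl'⟩ := lift_list l (fun z hz => h z (List.mem_cons_of_mem _ hz))
    exact ⟨⟨y, h y List.mem_cons_self⟩ :: l', by simp [hl']⟩

lemma isN_iff {i j : Fin 165} : isN i.val j.val = true ↔ DD.Nb i j := by
  rw [nb_iff, mem_nbT]
  unfold isN
  simp only [Bool.and_eq_true, Bool.not_eq_true', Bool.or_eq_true, Nat.beq_eq]
  constructor
  · rintro ⟨h1, h2⟩
    refine ⟨fun h => ?_, ?_⟩
    · subst h; simp at h1
    · rcases h2 with ((h | h) | h) | h
      · exact ⟨0, by omega, h⟩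
      · exact ⟨1, by omega, h⟩
      · exact ⟨2, by omega, h⟩
      · exact ⟨3, by omega, h⟩
  · rintro ⟨h1, k, hk, h⟩
    refine ⟨beq_false_of_ne (fun h => h1 (Fin.ext h)), ?_⟩
    rcases (by omega : k = 0 ∨ k = 1 ∨ k = 2 ∨ k = 3) with e | e | e | e
    · rw [e] at h; exact Or.inl (Or.inl (Or.inl h))
    · rw [e] at h; exact Or.inl (Or.inl (Or.inr h))
    · rw [e] at h; exact Or.inl (Or.inr h)
    · rw [e] at h; exact Or.inr h

lemma pth_of (p q : ℕ) (i0 : Fin 165) : ∀ (l : List (Fin 165)) (i : Fin 165),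
    pthN p q i0.val i.val (l.map (fun y => y.val)) = true → Lab.Pth DD {p, q} i0 i l
  | [], i, h => by
    simp only [List.map_nil, pthN, Bool.and_eq_true, Bool.not_eq_true', inL_iff] at h
    obtain ⟨⟨h1, h2⟩, h3⟩ := h
    refine ⟨?_, ?_⟩
    · rintro rfl; simp at h1
    · intro z hz
      simp only [Finset.mem_insert, Finset.mem_singleton] at hz
      rw [mem_fc]
      rcases hz with rfl | rfl <;> assumption
  | j :: l, i, h => by
    simp only [List.map_cons, pthN, Bool.and_eq_true, Bool.not_eq_true', inL_iff] at h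
    obtain ⟨⟨⟨⟨h1, h2⟩, h3⟩, h4⟩, h5⟩ := h
    refine ⟨?_, ?_, isN_iff.1 h4, pth_of p q i0 l j h5⟩
    · rintro rfl; simp at h1
    · intro z hz
      simp only [Finset.mem_insert, Finset.mem_singleton] at hz
      rw [mem_fc]
      rcases hz with rfl | rfl <;> assumption

lemma las_of : ∀ (l : List (Fin 165)) (i : Fin 165),
    lasN i.val (l.map (fun y => y.val)) = (Lab.las i l).val
  | [], _ => rfl
  | j :: l, i => by
    simp only [List.map_cons, lasN, Lab.las]
    exact las_of l j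

lemma tr_of : ∀ (l : List (Fin 165)) (i : Fin 165) (a : Fin 3),
    trN i.val (l.map (fun y => y.val)) a.val = (Lab.tr DD i l a).val
  | [], _, _ => rfl
  | j :: l, i, a => by
    simp only [List.map_cons, trN, frc_eq, Lab.tr]
    rw [← gg_val]
    exact tr_of l j _

lemma zero_reach : ∀ m : ℕ, ∀ i : Fin 165, i.val ≤ m → 0 ∈ LL i.val →
    ReflTransGen (fun a b => DD.Nb a b ∧ DD.x ∈ DD.fc a ∧ DD.x ∈ DD.fc b) i 0 := by
  intro m
  induction m with
  | zero =>
    intro i hi _
    have : i = 0 := Fin.ext (by simpa using hi)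
    subst this; exact ReflTransGen.refl
  | succ m ih =>
    intro i hi h0
    have h := allB_iff ck_starN i.val i.isLt
    rw [frc_eq] at h
    by_cases hi0 : i = 0
    · subst hi0; exact ReflTransGen.refl
    · have hi0' : i.val ≠ 0 := fun h => hi0 (Fin.ext h)
      rw [(inL_iff _ _).2 h0, beq_false_of_ne hi0'] at h
      simp only [Bool.not_true, Bool.false_or, Bool.and_eq_true, Nat.blt_eq, inL_iff] at h
      obtain ⟨⟨h1, h2⟩, h3⟩ := h
      set j : Fin 165 := ⟨Spb / 256 ^ i.val % 256, by omega⟩ with hj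
      have h3' : DD.Nb i j := isN_iff.1 h3
      exact ReflTransGen.head ⟨h3', (mem_fc _ _).2 h0, (mem_fc _ _).2 h2⟩
        (ih j (by show Spb / 256 ^ i.val % 256 ≤ m; omega) h2)

lemma others (k1 k2 : ℕ) (h1 : k1 < 4) (h2 : k2 < 4) (h : k1 ≠ k2) :
    ∃ l1 l2, l1 < l2 ∧ l2 < 4 ∧ k1 ≠ l1 ∧ k1 ≠ l2 ∧ k2 ≠ l1 ∧ k2 ≠ l2 ∧
      ∀ l < 4, l = k1 ∨ l = k2 ∨ l = l1 ∨ l = l2 := by
  interval_cases k1 <;> interval_cases k2 <;> first
    | exact absurd rfl h
    | exact ⟨0, 1, by omega, by omega, by omega, by omega, by omega, by omega, by intro l hl; omega⟩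
    | exact ⟨0, 2, by omega, by omega, by omega, by omega, by omega, by omega, by intro l hl; omega⟩
    | exact ⟨0, 3, by omega, by omega, by omega, by omega, by omega, by omega, by intro l hl; omega⟩
    | exact ⟨1, 2, by omega, by omega, by omega, by omega, by omega, by omega, by intro l hl; omega⟩
    | exact ⟨1, 3, by omega, by omega, by omega, by omega, by omega, by omega, by intro l hl; omega⟩
    | exact ⟨2, 3, by omega, by omega, by omega, by omega, by omega, by omega, by intro l hl; omega⟩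

theorem ball_ok : DD.OK where
  card i := by
    show (LL i.val).toFinset.card = 4
    rw [List.toFinset_card_of_nodup (ck_nodup i)]
    rfl
  sym i j h a := by
    obtain ⟨h1, h2⟩ := (nb_iff i j).1 h
    obtain ⟨k, hk, hj⟩ := (mem_nbT i j).1 h2
    have h := allB_iff (allB_iff ck_symN i.val i.isLt) k hk
    rw [frc_eq, ← hj, beq_false_of_ne (fun h => h1 (Fin.ext h)), Bool.false_or] at h
    have h3 := allB_iff h a.val a.isLt
    rw [frc_eq, Nat.beq_eq] at h3
    apply Fin.ext
    show (gg j i (gg i j a)).val = a.val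
    rw [gg_val, gg_val]; exact h3
  uniq i j k hj hk he := by
    obtain ⟨h1, h2⟩ := (nb_iff i j).1 hj
    obtain ⟨h3, h4⟩ := (nb_iff i k).1 hk
    obtain ⟨k1, hk1, hj1⟩ := (mem_nbT i j).1 h2
    obtain ⟨k2, hk2, hj2⟩ := (mem_nbT i k).1 h4
    by_cases hkk : k1 = k2
    · subst hkk; exact Fin.ext (hj1.trans hj2.symm)
    · exfalso
      have s1 := (shr_of hk1 hj1 h1 k1 hk1).1 rfl
      have s2 := (shr_of hk2 hj2 h3 k1 hk1).2 hkk
      have : vv i.val k1 ∈ DD.fc i ∩ DD.fc k :=
        Finset.mem_inter.2 ⟨(mem_fc _ _).2 (vv_mem _ _ hk1), (mem_fc _ _).2 s2⟩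
      rw [← he] at this
      exact s1 ((mem_fc _ _).1 (Finset.mem_inter.1 this).2)
  inner i j hj hsub := by
    obtain ⟨h1, h2⟩ := (nb_iff i j).1 hj
    obtain ⟨k, hk, hj1⟩ := (mem_nbT i j).1 h2
    have h := allB_iff (allB_iff ck_innerN i.val i.isLt) k hk
    rw [frc_eq, ← hj1, beq_false_of_ne (fun h => h1 (Fin.ext h)), Bool.false_or] at h
    have hall : allB 4 (fun l => Nat.beq l k || inW (vv i.val l)) = true := by
      have : ∀ l < 4, (Nat.beq l k || inW (vv i.val l)) = true := by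
        intro l hl
        by_cases hlk : l = k
        · subst hlk; simp
        · rw [beq_false_of_ne hlk, Bool.false_or, inW_iff (vv_lt _ _), ← mem_W]
          exact hsub (Finset.mem_inter.2 ⟨(mem_fc _ _).2 (vv_mem _ _ hl),
            (mem_fc _ _).2 ((shr_of hk hj1 h1 l hl).2 hlk)⟩)
      simp only [allB, Bool.and_eq_true]
      exact ⟨this 3 (by omega), this 2 (by omega), this 1 (by omega), this 0 (by omega), trivial⟩
    rw [hall] at h
    simp at h
  cyc i j k hj hk hjk hW := by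
    obtain ⟨h1, h2⟩ := (nb_iff i j).1 hj
    obtain ⟨h3, h4⟩ := (nb_iff i k).1 hk
    obtain ⟨k1, hk1, hj1⟩ := (mem_nbT i j).1 h2
    obtain ⟨k2, hk2, hj2⟩ := (mem_nbT i k).1 h4
    have hkk : k1 ≠ k2 := by rintro rfl; exact hjk (Fin.ext (hj1.trans hj2.symm))
    obtain ⟨l1, l2, a1, a2, a3, a4, a5, a6, a7⟩ := others k1 k2 hk1 hk2 hkk
    have hedge : DD.fc i ∩ DD.fc j ∩ DD.fc k = {vv i.val l1, vv i.val l2} := by
      ext z
      simp only [Finset.mem_inter, mem_fc, Finset.mem_insert, Finset.mem_singleton]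
      constructor
      · rintro ⟨⟨b1, b2⟩, b3⟩
        obtain ⟨l, hl, rfl⟩ := mem_LL.1 b1
        rcases a7 l hl with h | h | h | h
        · exact absurd b2 ((shr_of hk1 hj1 h1 l hl).1 h)
        · exact absurd b3 ((shr_of hk2 hj2 h3 l hl).1 h)
        · left; rw [h]
        · right; rw [h]
      · rintro (rfl | rfl)
        · exact ⟨⟨vv_mem _ _ (by omega), (shr_of hk1 hj1 h1 l1 (by omega)).2 (Ne.symm a3)⟩,
            (shr_of hk2 hj2 h3 l1 (by omega)).2 (Ne.symm a5)⟩
        · exact ⟨⟨vv_mem _ _ (by omega), (shr_of hk1 hj1 h1 l2 (by omega)).2 (Ne.symm a4)⟩,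
            (shr_of hk2 hj2 h3 l2 (by omega)).2 (Ne.symm a6)⟩
    rw [hedge] at hW ⊢
    have h := allB_iff (allB_iff (allB_iff (allB_iff (allB_iff ck_cycN i.val i.isLt) k1 hk1) k2 hk2)
      l1 (by omega)) l2 a2
    have hcond : (Nat.blt l1 l2 && !Nat.beq k1 k2 && !Nat.beq k1 l1 && !Nat.beq k1 l2 &&
        !Nat.beq k2 l1 && !Nat.beq k2 l2) = true := by
      simp only [Bool.and_eq_true, Nat.blt_eq, Bool.not_eq_true']
      exact ⟨⟨⟨⟨⟨a1, beq_false_of_ne hkk⟩, beq_false_of_ne a3⟩, beq_false_of_ne a4⟩,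
        beq_false_of_ne a5⟩, beq_false_of_ne a6⟩
    rw [if_pos hcond] at h
    simp only [frc_eq] at h
    rw [← hj1, ← hj2, beq_false_of_ne (fun h => h1 (Fin.ext h)),
      beq_false_of_ne (fun h => h3 (Fin.ext h)), Bool.false_or, Bool.false_or] at h
    have hnW : (inW (vv i.val l1) && inW (vv i.val l2)) = false := by
      rw [← Bool.not_eq_true]
      intro hc
      rw [Bool.and_eq_true, inW_iff (vv_lt _ _), inW_iff (vv_lt _ _)] at hc
      apply hW
      intro z hz
      simp only [Finset.mem_insert, Finset.mem_singleton] at hz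
      rw [mem_W]
      rcases hz with rfl | rfl
      · exact hc.1
      · exact hc.2
    rw [hnW, Bool.false_or] at h
    simp only [cycN, Bool.and_eq_true, List.all_eq_true, Nat.blt_eq, Nat.beq_eq] at h
    obtain ⟨⟨⟨c1, c2⟩, c3⟩, c4⟩ := h
    obtain ⟨l', hl'⟩ := lift_list _ c2
    rw [← hl'] at c1 c3 c4
    rw [las_of] at c3
    refine ⟨l', pth_of _ _ _ _ _ c1, Fin.ext c3, fun hx a => ?_⟩
    have hp : Nat.beq (vv i.val l1) 0 = false := by
      apply beq_false_of_ne
      intro h0; apply hx; rw [h0]; simp [DD]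
    have hq : Nat.beq (vv i.val l2) 0 = false := by
      apply beq_false_of_ne
      intro h0; apply hx; rw [h0]; simp [DD]
    rw [hp, hq, Bool.false_or, Bool.false_or] at c4
    have c5 := allB_iff c4 a.val a.isLt
    rw [Nat.beq_eq, ← gg_val, ← gg_val, tr_of] at c5
    exact Fin.ext c5
  sec i j hj hi hxj := by
    obtain ⟨h1, h2⟩ := (nb_iff i j).1 hj
    obtain ⟨k, hk, hj1⟩ := (mem_nbT i j).1 h2
    have h := allB_iff (allB_iff ck_secN i.val i.isLt) k hk
    rw [frc_eq, ← hj1, beq_false_of_ne (fun h => h1 (Fin.ext h)),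
      (inL_iff _ _).2 ((mem_fc i 0).1 hi), (inL_iff _ _).2 ((mem_fc j 0).1 hxj)] at h
    simp only [Bool.not_true, Bool.false_or, Nat.beq_eq] at h
    apply Fin.ext
    show (gg i j (DD.c i)).val = (DD.c j).val
    rw [gg_val]
    exact h
  star := ⟨0, (mem_fc 0 0).2 ((inL_iff _ _).1 (by decide +kernel))⟩
  conn i j hi hj := by
    have h1 := zero_reach i.val i le_rfl ((mem_fc i 0).1 hi)
    have h2 := zero_reach j.val j le_rfl ((mem_fc j 0).1 hj)
    refine h1.trans (ReflTransGen.mono ?_ _ _ h2.swap)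
    rintro a b ⟨h3, h4, h5⟩
    exact ⟨h3.symm, h5, h4⟩
  nosec := by
    rintro ⟨s, hs⟩
    have key : ∀ m : ℕ, ∀ i : Fin 165, i.val ≤ m → s i = s 0 := by
      intro m
      induction m with
      | zero =>
        intro i hi
        have : i = 0 := Fin.ext (by simpa using hi)
        rw [this]
      | succ m ih =>
        intro i hi
        have h := allB_iff ck_parN i.val i.isLt
        rw [frc_eq] at h
        by_cases hi0 : i = 0
        · rw [hi0]
        · have hi0' : i.val ≠ 0 := fun h => hi0 (Fin.ext h)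
          rw [beq_false_of_ne hi0', Bool.false_or] at h
          simp only [Bool.and_eq_true, Nat.blt_eq] at h
          obtain ⟨⟨h1, h2⟩, h3⟩ := h
          set j : Fin 165 := ⟨Parb / 256 ^ i.val % 256, by omega⟩ with hj
          have h2' : DD.Nb j i := isN_iff.1 h2
          have h4 := hs j i h2'
          rw [h4]
          have h5 := allB_iff h3 (s j).val (s j).isLt
          rw [Nat.beq_eq] at h5
          have h6 : DD.g j i (s j) = s j := Fin.ext (by
            show (gg j i (s j)).val = _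
            rw [gg_val]; exact h5)
          rw [h6]
          exact ih j (by show Parb / 256 ^ i.val % 256 ≤ m; omega)
    have e1 := hs 11 21 (isN_iff.1 (by decide +kernel))
    have e2 := hs 53 77 (isN_iff.1 (by decide +kernel))
    rw [key _ 21 le_rfl, key _ 11 le_rfl] at e1
    rw [key _ 77 le_rfl, key _ 53 le_rfl] at e2
    have k1 : ∀ a : Fin 3, ¬ (a = gg 11 21 a ∧ a = gg 53 77 a) := by decide +kernel
    exact k1 (s 0) ⟨e1, e2⟩

end Pool.Q287.Ear
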