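import Pool.Agent.Q287.Ear.Data

/-!
# The finite checks for the explicit ball
-/

namespace Pool.Q287.Ear

/-- bounded check -/
def allB : ℕ → (ℕ → Bool) → Bool
  | 0, _ => true
  | m + 1, f => f m && allB m f

lemma allB_iff {f : ℕ → Bool} : ∀ {m : ℕ}, allB m f = true → ∀ i < m, f i = true
  | 0, _, i, hi => absurd hi (Nat.not_lt_zero i)
  | m + 1, h, i, hi => by
    simp only [allB, Bool.and_eq_true] at h
    rcases Nat.lt_succ_iff_lt_or_eq.1 hi with h' | h'
    · exact allB_iff h.2 i h'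
    · rw [h']; exact h.1

/-- vertex number `k` of facet `i` -/
def vv (i k : ℕ) : ℕ := Vb / 64 ^ (4 * i + k) % 64

/-- bit mask of facet `i` -/
def msk (i : ℕ) : ℕ := 2 ^ vv i 0 ||| (2 ^ vv i 1 ||| (2 ^ vv i 2 ||| 2 ^ vv i 3))

lemma LL_eq (i : ℕ) : LL i = [vv i 0, vv i 1, vv i 2, vv i 3] := rfl

lemma msk_bit (i x : ℕ) : msk i / 2 ^ x % 2 = if x ∈ LL i then 1 else 0 := by
  have h : (msk i).testBit x = decide (x ∈ LL i) := by
    rw [Bool.eq_iff_iff]
    simp only [msk, Nat.testBit_or, Nat.testBit_two_pow, LL_eq, List.mem_cons, List.not_mem_nil,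
      or_false, Bool.or_eq_true, decide_eq_true_eq]
    constructor <;> intro h <;> omega
  rw [Nat.testBit_eq_decide_div_mod_eq] at h
  by_cases hx : x ∈ LL i
  · rw [if_pos hx]
    simpa [hx] using h
  · rw [if_neg hx]
    have : ¬ (msk i / 2 ^ x % 2 = 1) := by simpa [hx] using h
    omega

/-- number of common vertices -/
def cnt (i j : ℕ) : ℕ :=
  msk j / 2 ^ vv i 0 % 2 + (msk j / 2 ^ vv i 1 % 2 + (msk j / 2 ^ vv i 2 % 2 +
    msk j / 2 ^ vv i 3 % 2))

lemma cnt_eq (i j : ℕ) : cnt i j = ((LL i).filter (· ∈ LL j)).length := by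
  unfold cnt
  rw [msk_bit, msk_bit, msk_bit, msk_bit, LL_eq i]
  simp only [List.filter_cons, List.filter_nil]
  by_cases h0 : vv i 0 ∈ LL j <;> by_cases h1 : vv i 1 ∈ LL j <;> by_cases h2 : vv i 2 ∈ LL j <;>
      by_cases h3 : vv i 3 ∈ LL j <;> simp [h0, h1, h2, h3]

/-- one check -/
def ckv (i j : ℕ) : Bool :=
  Nat.beq i j || (Nat.beq (cnt i j) 3 ==
    (Nat.beq (Nbb / 256 ^ (4 * i + 0) % 256 % 165) j || (Nat.beq (Nbb / 256 ^ (4 * i + 1) % 256 % 165) j ||
    (Nat.beq (Nbb / 256 ^ (4 * i + 2) % 256 % 165) j || Nat.beq (Nbb / 256 ^ (4 * i + 3) % 256 % 165) j))))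

lemma ckv_all : allB 165 (fun i => allB 165 (ckv i)) = true := by decide +kernel

/-- increasing vertices -/
lemma ck_inc : allB 224 (fun i => Nat.blt (vv i 0) (vv i 1) && (Nat.blt (vv i 1) (vv i 2) &&
    Nat.blt (vv i 2) (vv i 3))) = true := by decide +kernel

lemma ck_nodup' (i : ℕ) (hi : i < 224) : (LL i).Nodup := by
  have h := allB_iff ck_inc i hi
  simp only [Bool.and_eq_true, Nat.blt_eq] at h
  rw [LL_eq]
  simp only [List.nodup_cons, List.mem_cons, List.not_mem_nil, or_false, not_or,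
    List.nodup_nil, and_true, not_false_eq_true]
  omega

lemma ck_nodup (i : Fin 165) : (LL i.val).Nodup := ck_nodup' i (by omega)

/-- neighbours by lists -/
def NbL (i j : Fin 165) : Prop := i ≠ j ∧ ((LL i.val).filter (· ∈ LL j.val)).length = 3

lemma ck_nb (i j : Fin 165) : NbL i j ↔ (j ≠ i ∧ j ∈ nbT i) := by
  have h := allB_iff (allB_iff ckv_all i.val i.isLt) j.val j.isLt
  unfold NbL
  by_cases hij : i = j
  · subst hij; simp
  · have hij' : i.val ≠ j.val := fun h => hij (Fin.ext h)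
    rw [← cnt_eq]
    have hb : Nat.beq i.val j.val = false := by
      rw [← Bool.not_eq_true]; intro hh; exact hij' (Nat.eq_of_beq_eq_true hh)
    simp only [ckv, hb, Bool.false_or, beq_iff_eq] at h
    have hm : ∀ k, (nbF i k = j ↔ Nbb / 256 ^ (4 * i.val + k) % 256 % 165 = j.val) := by
      intro k
      rw [Fin.ext_iff]
      rfl
    have e : j ∈ nbT i ↔ (nbF i 0 = j ∨ nbF i 1 = j ∨ nbF i 2 = j ∨ nbF i 3 = j) := by
      simp only [nbT, List.mem_cons, List.not_mem_nil, or_false, eq_comm]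
    rw [e, hm, hm, hm, hm]
    have h' := Bool.eq_iff_iff.1 h
    simp only [Bool.or_eq_true, Nat.beq_eq] at h'
    constructor
    · rintro ⟨_, h3⟩
      exact ⟨fun hh => hij hh.symm, h'.1 h3⟩
    · rintro ⟨_, h3⟩
      exact ⟨hij, h'.2 h3⟩

end Pool.Q287.Ear
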