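import Pool.Agent.Q287.Ear.Check

/-!
# The finite checks for the explicit ball, second part
-/

namespace Pool.Q287.Ear

/-- force the evaluation of `m` -/
def frc {α : Type} (m : ℕ) (f : ℕ → α) : α :=
  match m with
  | 0 => f 0
  | k + 1 => f (k + 1)

lemma frc_eq {α : Type} (m : ℕ) (f : ℕ → α) : frc m f = f m := by
  cases m <;> rfl

/-- neighbours -/
def nn (i k : ℕ) : ℕ := Nbb / 256 ^ (4 * i + k) % 256 % 165

lemma nbF_val (i : Fin 165) (k : ℕ) : (nbF i k).val = nn i.val k := rfl

/-- permutations -/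
def pn (m a : ℕ) : ℕ := 6746936868 / 4 ^ (3 * m + a) % 4 % 3

/-- labels -/
def ln (i k : ℕ) : ℕ := Lbb / 8 ^ (4 * i + k) % 8

/-- transport -/
def gn (i j a : ℕ) : ℕ :=
  if j = nn i 0 then pn (ln i 0) a else
  if j = nn i 1 then pn (ln i 1) a else
  if j = nn i 2 then pn (ln i 2) a else
  if j = nn i 3 then pn (ln i 3) a else a

lemma gg_val (i j : Fin 165) (a : Fin 3) : (gg i j a).val = gn i.val j.val a.val := by
  unfold gg gn
  simp only [Fin.ext_iff, nbF_val]
  split_ifs <;> rfl

/-- membership of a vertex in a facet -/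
def inL (i x : ℕ) : Bool := Nat.beq (msk i / 2 ^ x % 2) 1

lemma inL_iff (i x : ℕ) : inL i x = true ↔ x ∈ LL i := by
  unfold inL
  rw [Nat.beq_eq, msk_bit]
  split_ifs with h <;> simp [h]

/-- the triangle of `i` omitting vertex `k` is `fc i ∩ fc j` -/
def shr (i k j : ℕ) : Bool :=
  allB 4 fun l => if Nat.beq l k then !inL j (vv i l) else inL j (vv i l)

/-- a Boolean implication -/
def imp (a b : Bool) : Bool := !a || b

lemma imp_iff {a b : Bool} : imp a b = true ↔ (a = true → b = true) := by
  cases a <;> cases b <;> simp [imp]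

/-- check of the neighbours -/
lemma ck_shr : allB 165 (fun i => allB 4 fun k =>
    frc (nn i k) fun j => Nat.beq j i || shr i k j) = true := by decide +kernel

lemma ck_symN : allB 165 (fun i => allB 4 fun k =>
    frc (nn i k) fun j => Nat.beq j i || allB 3 fun a =>
      frc (gn i j a) fun b => Nat.beq (gn j i b) a) = true := by decide +kernel

/-- mask of the boundary vertices -/
def Wm : ℕ := (Wl.map fun x => 2 ^ x).sum

lemma Wm_iff : allB 64 (fun x => Nat.beq (Wm / 2 ^ x % 2) 1 == Wl.contains x) = true := by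
  decide +kernel

/-- membership in the boundary -/
def inW (x : ℕ) : Bool := Nat.beq (Wm / 2 ^ x % 2) 1

lemma ck_innerN : allB 165 (fun i => allB 4 fun k =>
    frc (nn i k) fun j => Nat.beq j i ||
      !(allB 4 fun l => Nat.beq l k || inW (vv i l))) = true := by decide +kernel

/-- the next facet of the walk -/
def nxt (p q prev cur : ℕ) : ℕ :=
  frc (nn cur 0) fun y0 => if (!Nat.beq y0 prev && !Nat.beq y0 cur && inL y0 p && inL y0 q) then y0
    else frc (nn cur 1) fun y1 =>
      if (!Nat.beq y1 prev && !Nat.beq y1 cur && inL y1 p && inL y1 q) then y1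
    else frc (nn cur 2) fun y2 =>
      if (!Nat.beq y2 prev && !Nat.beq y2 cur && inL y2 p && inL y2 q) then y2
    else nn cur 3

/-- the walk -/
def wkN (tgt p q : ℕ) : ℕ → ℕ → ℕ → List ℕ
  | 0, _, _ => []
  | m + 1, prev, cur =>
    if Nat.beq cur tgt then [] else frc (nxt p q prev cur) fun y => y :: wkN tgt p q m cur y

/-- neighbour test -/
def isN (i j : ℕ) : Bool :=
  !Nat.beq j i && (Nat.beq j (nn i 0) || Nat.beq j (nn i 1) || Nat.beq j (nn i 2) ||
    Nat.beq j (nn i 3))

/-- path test -/
def pthN (p q i0 : ℕ) : ℕ → List ℕ → Bool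
  | i, [] => !Nat.beq i i0 && inL i p && inL i q
  | i, j :: l => !Nat.beq i i0 && inL i p && inL i q && isN i j && pthN p q i0 j l

/-- last element -/
def lasN : ℕ → List ℕ → ℕ
  | i, [] => i
  | _, j :: l => lasN j l

/-- transport along a path -/
def trN : ℕ → List ℕ → ℕ → ℕ
  | _, [], a => a
  | i, j :: l, a => frc (gn i j a) fun b => trN j l b

/-- check at one edge -/
def cycN (i j k p q : ℕ) (l : List ℕ) : Bool :=
  pthN p q i j l && l.all (fun y => Nat.blt y 165) && Nat.beq (lasN j l) k &&
    (Nat.beq p 0 || Nat.beq q 0 || allB 3 fun a => Nat.beq (trN j l (gn i j a)) (gn i k a))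

lemma ck_cycN : allB 165 (fun i => allB 4 fun k1 => allB 4 fun k2 => allB 4 fun l1 => allB 4 fun l2 =>
    if Nat.blt l1 l2 && !Nat.beq k1 k2 && !Nat.beq k1 l1 && !Nat.beq k1 l2 && !Nat.beq k2 l1 &&
      !Nat.beq k2 l2 then
      frc (nn i k1) fun j => frc (nn i k2) fun k => Nat.beq j i || Nat.beq k i ||
      frc (vv i l1) fun p => frc (vv i l2) fun q => (inW p && inW q) ||
        cycN i j k p q (wkN k p q 10 i j) else true) = true := by decide +kernel

/-- the section on the star of `0` -/
def cn (i : ℕ) : ℕ := Cb / 4 ^ i % 4 % 3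

lemma ck_secN : allB 165 (fun i => allB 4 fun k =>
    frc (nn i k) fun j => Nat.beq j i || !inL i 0 || !inL j 0 ||
      Nat.beq (gn i j (cn i)) (cn j)) = true := by decide +kernel

lemma ck_starN : allB 165 (fun i => !inL i 0 || Nat.beq i 0 ||
    frc (Spb / 256 ^ i % 256) fun j => Nat.blt j i && inL j 0 && isN i j) = true := by
  decide +kernel

lemma ck_parN : allB 165 (fun i => Nat.beq i 0 ||
    frc (Parb / 256 ^ i % 256) fun j => Nat.blt j i && isN j i &&
      allB 3 fun a => Nat.beq (gn j i a) a) = true := by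
  decide +kernel

end Pool.Q287.Ear
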