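import Mathlib

/-!
# A criterion for the failure of relative shellability
-/

namespace Pool.Q287.Ear

open Relation

variable {n : ℕ}

/-- data of a triangulated ball with facets `fc i`, boundary vertices `W`, and labels -/
structure Lab (n : ℕ) where
  fc : Fin n → Finset ℕ
  W : Finset ℕ
  x : ℕ
  g : Fin n → Fin n → Fin 3 → Fin 3
  c : Fin n → Fin 3

namespace Lab

variable (D : Lab n)

/-- neighbours -/
def Nb (i j : Fin n) : Prop := i ≠ j ∧ (D.fc i ∩ D.fc j).card = 3

/-- the values at the end of a path -/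
def tr (D : Lab n) : Fin n → List (Fin n) → Fin 3 → Fin 3
  | _, [], a => a
  | i, j :: l, a => tr D j l (D.g i j a)

/-- the last facet of a path -/
def las : Fin n → List (Fin n) → Fin n
  | i, [] => i
  | _, j :: l => las j l

/-- path of facets around the edge `f` avoiding the facet `i0`, starting at `i` -/
def Pth (D : Lab n) (f : Finset ℕ) (i0 : Fin n) : Fin n → List (Fin n) → Prop
  | i, [] => i ≠ i0 ∧ f ⊆ D.fc i
  | i, j :: l => i ≠ i0 ∧ f ⊆ D.fc i ∧ D.Nb i j ∧ Pth D f i0 j l

/-- the finite conditions -/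
structure OK : Prop where
  card : ∀ i, (D.fc i).card = 4
  sym : ∀ i j, D.Nb i j → ∀ a, D.g j i (D.g i j a) = a
  uniq : ∀ i j k, D.Nb i j → D.Nb i k → D.fc i ∩ D.fc j = D.fc i ∩ D.fc k → j = k
  inner : ∀ i j, D.Nb i j → ¬ (D.fc i ∩ D.fc j ⊆ D.W)
  cyc : ∀ i j k, D.Nb i j → D.Nb i k → j ≠ k → ¬ (D.fc i ∩ D.fc j ∩ D.fc k ⊆ D.W) →
    ∃ l, Pth D (D.fc i ∩ D.fc j ∩ D.fc k) i j l ∧ las j l = k ∧
      (D.x ∉ D.fc i ∩ D.fc j ∩ D.fc k → ∀ a, D.tr j l (D.g i j a) = D.g i k a)
  sec : ∀ i j, D.Nb i j → D.x ∈ D.fc i → D.x ∈ D.fc j → D.g i j (D.c i) = D.c j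
  star : ∃ i, D.x ∈ D.fc i
  conn : ∀ i j, D.x ∈ D.fc i → D.x ∈ D.fc j →
    ReflTransGen (fun a b => D.Nb a b ∧ D.x ∈ D.fc a ∧ D.x ∈ D.fc b) i j
  nosec : ¬ ∃ s : Fin n → Fin 3, ∀ i j, D.Nb i j → s j = D.g i j (s i)

/-- a relative shelling order of the ball relative to the boundary -/
def RS (r : Fin n → ℕ) : Prop :=
  ∀ i, ∀ s ⊆ D.fc i, (s ⊆ D.W ∨ ∃ j, r j < r i ∧ s ⊆ D.fc j) →
    ∃ t ⊆ D.fc i, s ⊆ t ∧ t.card = 3 ∧ (t ⊆ D.W ∨ ∃ j, r j < r i ∧ t ⊆ D.fc j)

variable {D}

lemma Nb.symm {i j : Fin n} (h : D.Nb i j) : D.Nb j i :=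
  ⟨h.1.symm, by rw [Finset.inter_comm]; exact h.2⟩

/-- `s` is a section on the facets of index `r ≥ t` -/
def Sec (D : Lab n) (r : Fin n → ℕ) (t : ℕ) (s : Fin n → Fin 3) : Prop :=
  ∀ i j, t ≤ r i → t ≤ r j → D.Nb i j → s j = D.g i j (s i)

lemma tr_sec {r : Fin n → ℕ} {t : ℕ} {s : Fin n → Fin 3} (hs : Sec D r t s) {f : Finset ℕ}
    {i0 : Fin n} (hf : ∀ k, k ≠ i0 → f ⊆ D.fc k → t ≤ r k) :
    ∀ (l : List (Fin n)) (i : Fin n), Pth D f i0 i l → D.tr i l (s i) = s (las i l)
  | [], i, _ => rfl
  | j :: l, i, h => by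
    have h' : Pth D f i0 j l := h.2.2.2
    have hj : t ≤ r j := by
      cases l with
      | nil => exact hf j h'.1 h'.2
      | cons a l => exact hf j h'.1 h'.2.1
    have hi : t ≤ r i := hf i h.1 h.2.1
    show D.tr j l (D.g i j (s i)) = s (las j l)
    rw [← hs i j hi hj h.2.2.1]
    exact tr_sec hs hf l j h'

lemma reach_pth {r : Fin n → ℕ} {t : ℕ} {f : Finset ℕ} (hx : D.x ∈ f)
    {i0 : Fin n} (hf : ∀ k, k ≠ i0 → f ⊆ D.fc k → t ≤ r k) :
    ∀ (l : List (Fin n)) (i : Fin n), Pth D f i0 i l →
      ReflTransGen (fun a b => D.Nb a b ∧ (D.x ∈ D.fc a ∧ t ≤ r a) ∧ (D.x ∈ D.fc b ∧ t ≤ r b))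
        i (las i l)
  | [], i, _ => ReflTransGen.refl
  | j :: l, i, h => by
    have h' : Pth D f i0 j l := h.2.2.2
    have hj : t ≤ r j ∧ f ⊆ D.fc j := by
      cases l with
      | nil => exact ⟨hf j h'.1 h'.2, h'.2⟩
      | cons a l => exact ⟨hf j h'.1 h'.2.1, h'.2.1⟩
    have hi : t ≤ r i := hf i h.1 h.2.1
    refine ReflTransGen.head ⟨h.2.2.1, ⟨h.2.1 hx, hi⟩, ⟨hj.2 hx, hj.1⟩⟩ ?_
    exact reach_pth hx hf l j h'

/-- two later neighbours of `i`: the common edge is not yet covered -/
lemma edge_free (ok : D.OK) {r : Fin n → ℕ} (hr : D.RS r) {i j k : Fin n} (hj : D.Nb i j)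
    (hk : D.Nb i k) (hjk : j ≠ k) (rj : r i < r j) (rk : r i < r k) :
    ¬ (D.fc i ∩ D.fc j ∩ D.fc k ⊆ D.W) ∧
      ∀ m, D.fc i ∩ D.fc j ∩ D.fc k ⊆ D.fc m → r i ≤ r m := by
  set f := D.fc i ∩ D.fc j ∩ D.fc k with hf
  have hfi : f ⊆ D.fc i := by
    intro y hy; simp only [hf, Finset.mem_inter] at hy; exact hy.1.1
  have key : ¬ (f ⊆ D.W ∨ ∃ m, r m < r i ∧ f ⊆ D.fc m) := by
    intro hc
    obtain ⟨t, hti, hft, ht3, hcov⟩ := hr i f hfi hc
    -- t is one of the two triangles
    have hne : D.fc i ∩ D.fc j ≠ D.fc i ∩ D.fc k := fun h => hjk (ok.uniq i j k hj hk h)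
    have h2 : (D.fc i ∩ D.fc j ∪ D.fc i ∩ D.fc k) ⊆ D.fc i :=
      Finset.union_subset Finset.inter_subset_left Finset.inter_subset_left
    have hi4 := ok.card i
    have hinter : (D.fc i ∩ D.fc j) ∩ (D.fc i ∩ D.fc k) = f := by
      ext y; simp only [hf, Finset.mem_inter]; tauto
    have hu := Finset.card_union_add_card_inter (D.fc i ∩ D.fc j) (D.fc i ∩ D.fc k)
    rw [hj.2, hk.2, hinter] at hu
    have hule := Finset.card_le_card h2
    have hflt : f.card < 3 := by
      by_contra hge
      push Not at hge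
      have e1 : f = D.fc i ∩ D.fc j := Finset.eq_of_subset_of_card_le
        (by rw [← hinter]; exact Finset.inter_subset_left) (by rw [hj.2]; exact hge)
      have e2 : f = D.fc i ∩ D.fc k := Finset.eq_of_subset_of_card_le
        (by rw [← hinter]; exact Finset.inter_subset_right) (by rw [hk.2]; exact hge)
      exact hne (e1.symm.trans e2)
    have hf2 : f.card = 2 := by omega
    -- union is everything
    have hU : D.fc i ∩ D.fc j ∪ D.fc i ∩ D.fc k = D.fc i :=
      Finset.eq_of_subset_of_card_le h2 (by omega)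
    -- t \ f has one element
    have htf : (t \ f).card = 1 := by
      have := Finset.card_sdiff_add_card_eq_card hft
      omega
    obtain ⟨y, hy⟩ := Finset.card_eq_one.1 htf
    have hyt : y ∈ t := by
      have : y ∈ t \ f := by rw [hy]; simp
      exact (Finset.mem_sdiff.1 this).1
    have ht : t ⊆ insert y f := by
      intro z hz
      by_cases hzf : z ∈ f
      · exact Finset.mem_insert_of_mem hzf
      · have : z ∈ t \ f := Finset.mem_sdiff.2 ⟨hz, hzf⟩
        rw [hy] at this
        exact Finset.mem_insert.2 (Or.inl (Finset.mem_singleton.1 this))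
    have hyU : y ∈ D.fc i ∩ D.fc j ∪ D.fc i ∩ D.fc k := by rw [hU]; exact hti hyt
    have main : ∀ m, D.Nb i m → r i < r m → f ⊆ D.fc i ∩ D.fc m → y ∈ D.fc i ∩ D.fc m →
        False := by
      intro m hm rm hfm hym
      have hsub : t ⊆ D.fc i ∩ D.fc m := by
        intro z hz
        rcases Finset.mem_insert.1 (ht hz) with h | h
        · rw [h]; exact hym
        · exact hfm h
      have heq : t = D.fc i ∩ D.fc m := Finset.eq_of_subset_of_card_le hsub (by rw [hm.2, ht3])
      rcases hcov with h | ⟨q, hq, hq2⟩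
      · exact ok.inner i m hm (heq ▸ h)
      · have hqi : q ≠ i := by rintro rfl; exact lt_irrefl _ hq
        have hsub2 : t ⊆ D.fc i ∩ D.fc q := Finset.subset_inter hti hq2
        have hne4 : (D.fc i ∩ D.fc q).card ≤ 4 := by
          rw [← hi4]; exact Finset.card_le_card Finset.inter_subset_left
        have h3 : 3 ≤ (D.fc i ∩ D.fc q).card := by rw [← ht3]; exact Finset.card_le_card hsub2
        have hcase : (D.fc i ∩ D.fc q).card = 3 := by
          by_contra hcc
          have h4 : (D.fc i ∩ D.fc q).card = 4 := by omega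
          have e1 : D.fc i ∩ D.fc q = D.fc i := Finset.eq_of_subset_of_card_le
            Finset.inter_subset_left (by omega)
          have e2 : D.fc i ∩ D.fc q = D.fc q := Finset.eq_of_subset_of_card_le
            Finset.inter_subset_right (by rw [ok.card q]; omega)
          -- then m is a neighbour of q with the same triangle, so q = i
          have e3 : D.fc q = D.fc i := e2.symm.trans e1
          have n1 : D.Nb m i := hm.symm
          have n2 : D.Nb m q := ⟨by rintro rfl; omega, by rw [e3]; exact n1.2⟩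
          exact hqi (ok.uniq m q i n2 n1 (by rw [e3]))
        have hnq : D.Nb i q := ⟨hqi.symm, hcase⟩
        have : m = q := ok.uniq i m q hm hnq (by
          rw [← heq]
          exact Finset.eq_of_subset_of_card_le hsub2 (by rw [hcase, ht3]))
        subst this
        omega
    rcases Finset.mem_union.1 hyU with h | h
    · exact main j hj rj (by rw [← hinter]; exact Finset.inter_subset_left) h
    · exact main k hk rk (by rw [← hinter]; exact Finset.inter_subset_right) h
  refine ⟨fun h => key (Or.inl h), fun m hm => ?_⟩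
  by_contra hlt
  exact key (Or.inr ⟨m, by omega, hm⟩)

/-- consistency at two later neighbours -/
lemma flat (ok : D.OK) {r : Fin n → ℕ} (inj : Function.Injective r) (hr : D.RS r)
    {i j k : Fin n} {s : Fin n → Fin 3} (hs : Sec D r (r i + 1) s) (hj : D.Nb i j)
    (hk : D.Nb i k) (rj : r i < r j) (rk : r i < r k)
    (hx : D.x ∉ D.fc i ∩ D.fc j ∩ D.fc k) (b : Fin 3) (hb : s j = D.g i j b) :
    s k = D.g i k b := by
  by_cases hjk : j = k
  · subst hjk; exact hb
  · obtain ⟨h1, h2⟩ := edge_free ok hr hj hk hjk rj rk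
    obtain ⟨l, hl, hlas, hfl⟩ := ok.cyc i j k hj hk hjk h1
    have h3 : ∀ m, m ≠ i → D.fc i ∩ D.fc j ∩ D.fc k ⊆ D.fc m → r i + 1 ≤ r m := by
      intro m hm hsub
      have := h2 m hsub
      rcases this.lt_or_eq with h | h
      · exact h
      · exact absurd (inj h).symm hm
    have := tr_sec hs h3 l j hl
    rw [hlas, hb, hfl hx b] at this
    exact this.symm

/-- extension of a section by one facet -/
lemma ext (ok : D.OK) {r : Fin n → ℕ} (inj : Function.Injective r)
    {i : Fin n} {s : Fin n → Fin 3} (hs : Sec D r (r i + 1) s) (b : Fin 3)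
    (hb : ∀ j, D.Nb i j → r i < r j → s j = D.g i j b) :
    Sec D r (r i) (Function.update s i b) := by
  intro j k rj rk hjk
  by_cases hj : j = i
  · subst hj
    have hk : k ≠ j := hjk.1.symm
    rw [Function.update_self, Function.update_of_ne hk]
    exact hb k hjk (lt_of_le_of_ne rk (fun h => hk (inj h).symm))
  · by_cases hk : k = i
    · subst hk
      rw [Function.update_self, Function.update_of_ne hj]
      have := hb j hjk.symm (lt_of_le_of_ne rj (fun h => hj (inj h).symm))
      rw [this]
      exact (ok.sym k j hjk.symm b).symm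
    · rw [Function.update_of_ne hj, Function.update_of_ne hk]
      exact hs j k (lt_of_le_of_ne rj (fun h => hj (inj h).symm))
        (lt_of_le_of_ne rk (fun h => hk (inj h).symm)) hjk

/-- beyond the star of `x`: sections with prescribed values exist -/
lemma claimA (ok : D.OK) {r : Fin n → ℕ} (inj : Function.Injective r) (hr : D.RS r)
    (N : ℕ) (hN : ∀ i, r i < N) (t0 : ℕ) (ht0 : ∀ i, t0 ≤ r i → D.x ∉ D.fc i) :
    ∀ m, m ≤ N → t0 ≤ N - m →
      (∃ s, Sec D r (N - m) s) ∧ ∀ i, N - m ≤ r i → ∀ a, ∃ s, Sec D r (N - m) s ∧ s i = a := by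
  intro m
  induction m with
  | zero =>
    intro _ _
    refine ⟨⟨fun _ => 0, fun i _ hi => absurd (hN i) (by omega)⟩, fun i hi => ?_⟩
    exact absurd (hN i) (by omega)
  | succ m ih =>
    intro hm ht
    obtain ⟨hex, hall⟩ := ih (by omega) (by omega)
    by_cases hF : ∃ F, r F = N - (m + 1)
    · obtain ⟨F, hF⟩ := hF
      have e : N - m = r F + 1 := by omega
      rw [e] at hex hall
      rw [← hF]
      have hxF : D.x ∉ D.fc F := ht0 F (by omega)
      -- main extension
      have hx : ∀ j k, D.x ∉ D.fc F ∩ D.fc j ∩ D.fc k := by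
        intro j k h
        simp only [Finset.mem_inter] at h
        exact hxF h.1.1
      have hval : ∀ a, ∃ s, Sec D r (r F) s ∧ s F = a := by
        intro a
        by_cases hn : ∃ G, D.Nb F G ∧ r F < r G
        · obtain ⟨G, hG, rG⟩ := hn
          obtain ⟨s, hs, hsG⟩ := hall G rG (D.g F G a)
          refine ⟨_, ext ok inj hs a fun j hj rj => ?_, Function.update_self _ _ _⟩
          exact flat ok inj hr hs hG hj rG rj (hx _ _) a hsG
        · obtain ⟨s, hs⟩ := hex
          refine ⟨_, ext ok inj hs a fun j hj rj => absurd ⟨j, hj, rj⟩ hn,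
            Function.update_self _ _ _⟩
      refine ⟨(hval 0).imp fun s h => h.1, fun i hi a => ?_⟩
      by_cases hiF : i = F
      · subst hiF; exact hval a
      · have hi' : r F + 1 ≤ r i := lt_of_le_of_ne hi (fun h => hiF (inj h).symm)
        obtain ⟨s, hs, hsa⟩ := hall i hi' a
        by_cases hn : ∃ G, D.Nb F G ∧ r F < r G
        · obtain ⟨G, hG, rG⟩ := hn
          refine ⟨_, ext ok inj hs (D.g G F (s G)) fun j hj rj => ?_, ?_⟩
          · refine flat ok inj hr hs hG hj rG rj (hx _ _) _ ?_
            exact (ok.sym G F hG.symm _).symm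
          · rw [Function.update_of_ne hiF]; exact hsa
        · refine ⟨_, ext ok inj hs 0 fun j hj rj => absurd ⟨j, hj, rj⟩ hn, ?_⟩
          rw [Function.update_of_ne hiF]; exact hsa
    · have h1 : ∀ i, N - (m + 1) ≤ r i → N - m ≤ r i := by
        intro i hi
        rcases hi.lt_or_eq with h | h
        · omega
        · exact absurd ⟨i, h.symm⟩ hF
      refine ⟨?_, ?_⟩
      · obtain ⟨s, hs⟩ := hex
        exact ⟨s, fun i j hi hj => hs i j (h1 i hi) (h1 j hj)⟩
      · intro i hi a
        obtain ⟨s, hs, ha⟩ := hall i (h1 i hi) a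
        exact ⟨s, fun i j hi hj => hs i j (h1 i hi) (h1 j hj), ha⟩

/-- adjacency in the remaining part of the star of `x` -/
def Adj (D : Lab n) (r : Fin n → ℕ) (t : ℕ) (a b : Fin n) : Prop :=
  D.Nb a b ∧ (D.x ∈ D.fc a ∧ t ≤ r a) ∧ (D.x ∈ D.fc b ∧ t ≤ r b)

/-- the remaining part of the star of `x` stays connected -/
lemma conn_star (ok : D.OK) {r : Fin n → ℕ} (inj : Function.Injective r) (hr : D.RS r) :
    ∀ t i j, D.x ∈ D.fc i → D.x ∈ D.fc j → t ≤ r i → t ≤ r j →
      ReflTransGen (Adj D r t) i j := by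
  intro t
  induction t with
  | zero =>
    intro i j hi hj _ _
    refine ReflTransGen.mono ?_ _ _ (ok.conn i j hi hj)
    intro a b h
    exact ⟨h.1, ⟨h.2.1, Nat.zero_le _⟩, ⟨h.2.2, Nat.zero_le _⟩⟩
  | succ t ih =>
    intro i j hi hj ri rj
    have h0 := ih i j hi hj (by omega) (by omega)
    by_cases hF : ∃ F, r F = t ∧ D.x ∈ D.fc F
    · obtain ⟨F, hF, hxF⟩ := hF
      have key : ∀ k, ReflTransGen (Adj D r t) i k →
          (k ≠ F → ReflTransGen (Adj D r (t + 1)) i k) ∧
          (k = F → ∀ m, D.Nb F m → D.x ∈ D.fc m → t + 1 ≤ r m →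
            ReflTransGen (Adj D r (t + 1)) i m) := by
        intro k hk
        induction hk with
        | refl =>
          refine ⟨fun _ => ReflTransGen.refl, fun h => ?_⟩
          subst h; omega
        | @tail b c hb hbc ihb =>
          obtain ⟨hnb, ⟨hxb, rb⟩, ⟨hxc, rc⟩⟩ := hbc
          by_cases hbF : b = F
          · subst hbF
            refine ⟨fun hc => ?_, fun hc => absurd hc.symm hnb.1⟩
            have : t + 1 ≤ r c := by
              rcases rc.lt_or_eq with h | h
              · exact h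
              · exact absurd (inj (hF.trans h)) hnb.1
            exact ihb.2 rfl c hnb hxc this
          · have rb' : t + 1 ≤ r b := by
              rcases rb.lt_or_eq with h | h
              · exact h
              · exact absurd (inj (h.symm.trans hF.symm)) hbF
            have ib := ihb.1 hbF
            refine ⟨fun hc => ?_, fun hc => ?_⟩
            · have : t + 1 ≤ r c := by
                rcases rc.lt_or_eq with h | h
                · exact h
                · exact absurd (inj (h.symm.trans hF.symm)) hc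
              exact ib.tail ⟨hnb, ⟨hxb, rb'⟩, ⟨hxc, this⟩⟩
            · subst hc
              intro m hm hxm rm
              by_cases hbm : b = m
              · subst hbm; exact ib
              · obtain ⟨h1, h2⟩ := edge_free ok hr hnb.symm hm hbm (by omega) (by omega)
                obtain ⟨l, hl, hlas, _⟩ := ok.cyc c b m hnb.symm hm hbm h1
                have h3 : ∀ q, q ≠ c → D.fc c ∩ D.fc b ∩ D.fc m ⊆ D.fc q → t + 1 ≤ r q := by
                  intro q hq hsub
                  have := h2 q hsub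
                  rcases this.lt_or_eq with h | h
                  · omega
                  · exact absurd (inj h).symm hq
                have hxf : D.x ∈ D.fc c ∩ D.fc b ∩ D.fc m := by
                  simp only [Finset.mem_inter]; exact ⟨⟨hxc, hxb⟩, hxm⟩
                have := reach_pth hxf h3 l b hl
                rw [hlas] at this
                exact ib.trans this
      have hjF : j ≠ F := by rintro rfl; omega
      exact (key j h0).1 hjF
    · refine ReflTransGen.mono ?_ _ _ h0
      rintro a b ⟨h1, ⟨h2, h3⟩, ⟨h4, h5⟩⟩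
      refine ⟨h1, ⟨h2, ?_⟩, ⟨h4, ?_⟩⟩
      · rcases h3.lt_or_eq with h | h
        · exact h
        · exact absurd ⟨a, h.symm, h2⟩ hF
      · rcases h5.lt_or_eq with h | h
        · exact h
        · exact absurd ⟨b, h.symm, h4⟩ hF

/-- **Main criterion**: no relative shelling. -/
theorem no_relative_shelling (ok : D.OK) (r : Fin n → ℕ) (inj : Function.Injective r) :
    ¬ D.RS r := by
  intro hr
  -- last facet of the star
  obtain ⟨F0, hF0, hmax⟩ : ∃ F, D.x ∈ D.fc F ∧ ∀ G, D.x ∈ D.fc G → r G ≤ r F := by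
    obtain ⟨i, hi⟩ := ok.star
    obtain ⟨F, hF, hm⟩ := Finset.exists_max_image (Finset.univ.filter fun i => D.x ∈ D.fc i) r
      ⟨i, by simpa using hi⟩
    exact ⟨F, by simpa using hF, fun G hG => hm G (by simpa using hG)⟩
  obtain ⟨N, hN⟩ : ∃ N, ∀ i, r i < N := by
    refine ⟨(Finset.univ.sup r) + 1, fun i => Nat.lt_succ_of_le (Finset.le_sup (Finset.mem_univ i))⟩
  have hA := claimA ok inj hr N hN (r F0 + 1) (fun i hi hx => by have := hmax i hx; omega)
    (N - (r F0 + 1)) (by omega) (by have := hN F0; omega)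
  have e : N - (N - (r F0 + 1)) = r F0 + 1 := by have := hN F0; omega
  rw [e] at hA
  -- claim Q
  have hQ : ∀ m, m ≤ r F0 → ∃ s, Sec D r (r F0 - m) s ∧
      ∀ i, r F0 - m ≤ r i → D.x ∈ D.fc i → s i = D.c i := by
    intro m
    induction m with
    | zero =>
      intro _
      have hst : ∀ i, r F0 ≤ r i → D.x ∈ D.fc i → i = F0 := by
        intro i hi hx
        exact inj (le_antisymm (hmax i hx) hi)
      have hx : ∀ j k, D.Nb F0 j → r F0 < r j → D.x ∉ D.fc F0 ∩ D.fc j ∩ D.fc k := by
        intro j k hj rj h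
        simp only [Finset.mem_inter] at h
        have := hmax j h.1.2
        omega
      rw [Nat.sub_zero]
      by_cases hn : ∃ G, D.Nb F0 G ∧ r F0 < r G
      · obtain ⟨G, hG, rG⟩ := hn
        obtain ⟨s, hs, hsG⟩ := hA.2 G rG (D.g F0 G (D.c F0))
        refine ⟨_, ext ok inj hs (D.c F0) fun j hj rj => ?_, fun i hi hxi => ?_⟩
        · exact flat ok inj hr hs hG hj rG rj (hx _ _ hG rG) _ hsG
        · rw [hst i hi hxi, Function.update_self]
      · obtain ⟨s, hs⟩ := hA.1
        refine ⟨_, ext ok inj hs (D.c F0) fun j hj rj => absurd ⟨j, hj, rj⟩ hn,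
          fun i hi hxi => ?_⟩
        rw [hst i hi hxi, Function.update_self]
    | succ m ih =>
      intro hm
      obtain ⟨s, hs, hsc⟩ := ih (by omega)
      by_cases hF : ∃ F, r F = r F0 - (m + 1)
      · obtain ⟨F, hF⟩ := hF
        have e : r F0 - m = r F + 1 := by omega
        rw [e] at hs hsc
        rw [← hF]
        by_cases hxF : D.x ∈ D.fc F
        · -- F has a later neighbour in the star
          have hne : F ≠ F0 := by rintro rfl; omega
          have hc := conn_star ok inj hr (r F) F F0 hxF hF0 le_rfl (by omega)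
          obtain ⟨G, hG, rG, hxG⟩ : ∃ G, D.Nb F G ∧ r F < r G ∧ D.x ∈ D.fc G := by
            rcases ReflTransGen.cases_head hc with h | ⟨G, hG, _⟩
            · exact absurd h hne
            · refine ⟨G, hG.1, ?_, hG.2.2.1⟩
              exact lt_of_le_of_ne hG.2.2.2 (fun h => hG.1.1 (inj h))
          have hsG : s G = D.g F G (D.c F) := by
            rw [hsc G rG hxG]; exact (ok.sec F G hG hxF hxG).symm
          refine ⟨_, ext ok inj hs (D.c F) fun j hj rj => ?_, fun i hi hxi => ?_⟩
          · by_cases hxj : D.x ∈ D.fc j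
            · rw [hsc j rj hxj]; exact (ok.sec F j hj hxF hxj).symm
            · refine flat ok inj hr hs hG hj rG rj ?_ _ hsG
              intro h
              simp only [Finset.mem_inter] at h
              exact hxj h.2
          · by_cases hiF : i = F
            · rw [hiF, Function.update_self]
            · rw [Function.update_of_ne hiF]
              exact hsc i (lt_of_le_of_ne hi (fun h => hiF (inj h).symm)) hxi
        · have hx : ∀ j k, D.x ∉ D.fc F ∩ D.fc j ∩ D.fc k := by
            intro j k h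
            simp only [Finset.mem_inter] at h
            exact hxF h.1.1
          have hfin : ∀ b, (∀ i, r F ≤ r i → D.x ∈ D.fc i →
              Function.update s F b i = D.c i) := by
            intro b i hi hxi
            have hiF : i ≠ F := by rintro rfl; exact hxF hxi
            rw [Function.update_of_ne hiF]
            exact hsc i (lt_of_le_of_ne hi (fun h => hiF (inj h).symm)) hxi
          by_cases hn : ∃ G, D.Nb F G ∧ r F < r G
          · obtain ⟨G, hG, rG⟩ := hn
            refine ⟨_, ext ok inj hs (D.g G F (s G)) fun j hj rj => ?_, hfin _⟩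
            refine flat ok inj hr hs hG hj rG rj (hx _ _) _ ?_
            exact (ok.sym G F hG.symm _).symm
          · exact ⟨_, ext ok inj hs 0 fun j hj rj => absurd ⟨j, hj, rj⟩ hn, hfin _⟩
      · have h1 : ∀ i, r F0 - (m + 1) ≤ r i → r F0 - m ≤ r i := by
          intro i hi
          rcases hi.lt_or_eq with h | h
          · omega
          · exact absurd ⟨i, h.symm⟩ hF
        exact ⟨s, fun i j hi hj => hs i j (h1 i hi) (h1 j hj), fun i hi => hsc i (h1 i hi)⟩
  obtain ⟨s, hs, -⟩ := hQ (r F0) le_rfl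
  rw [Nat.sub_self] at hs
  exact ok.nosec ⟨s, fun i j hij => hs i j (Nat.zero_le _) (Nat.zero_le _) hij⟩

end Lab

end Pool.Q287.Ear
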