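import Pool.Agent.Q287.Ear.Rel
import Pool.Agent.Q287.Ear.Hol

/-!
# Many copies of a ball glued along its boundary
-/

namespace Pool.Q287.Ear

/-- new names for the inner vertices -/
def ren (W : Finset ℕ) (hW : ∀ w ∈ W, w < 64) (k : ℕ) : ℕ ↪ ℕ where
  toFun v := if v ∈ W then v else v + 64 * k
  inj' := by
    intro a b h
    by_cases hk : k = 0
    · subst hk
      simpa using h
    · have hk' : 64 ≤ 64 * k := by omega
      by_cases ha : a ∈ W <;> by_cases hb : b ∈ W <;> simp only [ha, hb, if_true, if_false] at h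
      · exact h
      · have := hW a ha; omega
      · have := hW b hb; omega
      · omega

theorem many_copies {n : ℕ} (D : Lab n) (ok : D.OK) (finj : Function.Injective D.fc)
    (Q : Finset (Finset ℕ)) (hQ : IsPolytopeBoundary 4 Q)
    (hBQ : Finset.univ.image D.fc ⊂ Q) (hball : IsBall 4 (Finset.univ.image D.fc))
    (h64 : ∀ F ∈ Q, ∀ v ∈ F, v < 64) (hW64 : ∀ w ∈ D.W, w < 64)
    (hind : ∀ i, ∃ t ∈ bd 4 (Finset.univ.image D.fc), D.fc i ∩ D.W ⊆ t)
    (hbdW : ∀ t ∈ bd 4 (Finset.univ.image D.fc), t ⊆ D.W) :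
    ∃ A : Finset (Finset ℕ), HasConvexEarDecomposition 4 A ∧ ¬ Shellable 4 A := by
  set B := Finset.univ.image D.fc with hB
  set φ := ren D.W hW64 with hφ
  have hφW : ∀ k, ∀ v ∈ D.W, φ k v = v := by
    intro k v hv
    exact if_pos hv
  have hφN : ∀ k, ∀ v, v ∉ D.W → φ k v = v + 64 * k := by
    intro k v hv
    exact if_neg hv
  set E : ℕ → Finset (Finset ℕ) := fun k => if k = 0 then Q else rel (φ k) B with hE
  have hE0 : E 0 = Q := by simp [hE]
  have hEk : ∀ k, k ≠ 0 → E k = rel (φ k) B := by intro k hk; simp [hE, hk]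
  set SF : Finset (Finset ℕ) := (bd 4 B).biUnion Finset.powerset with hSF
  set m := SF.card + 1 with hm
  have hfc64 : ∀ i, ∀ v ∈ D.fc i, v < 64 := by
    intro i v hv
    exact h64 (D.fc i) (hBQ.1 (Finset.mem_image_of_mem _ (Finset.mem_univ i))) v hv
  -- common vertices of different pieces
  have hX : ∀ k l, k ≠ 0 → l ≠ k → ∀ w, w < 64 → ∀ G ∈ E l, φ k w ∈ G → w ∈ D.W := by
    intro k l hk hlk w hw G hG hwG
    by_contra hwW
    rw [hφN k w hwW] at hwG
    by_cases hl : l = 0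
    · subst hl
      rw [hE0] at hG
      have := h64 G hG _ hwG
      omega
    · rw [hEk l hl] at hG
      obtain ⟨F, hF, rfl⟩ := mem_rel.1 hG
      obtain ⟨z, hz, hz2⟩ := Finset.mem_map.1 hwG
      obtain ⟨i, -, rfl⟩ := Finset.mem_image.1 hF
      have hz64 := hfc64 i z hz
      by_cases hzW : z ∈ D.W
      · rw [hφW l z hzW] at hz2; omega
      · rw [hφN l z hzW] at hz2; omega
  have hmapW : ∀ k, ∀ s : Finset ℕ, s ⊆ D.W → s.map (φ k) = s := by
    intro k s hs
    ext v
    constructor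
    · intro hv
      obtain ⟨w, hw, rfl⟩ := Finset.mem_map.1 hv
      rw [hφW k w (hs hw)]; exact hw
    · intro hv
      exact Finset.mem_map.2 ⟨v, hv, hφW k v (hs hv)⟩
  have hbdE : ∀ k, k ≠ 0 → bd 4 (E k) = bd 4 B := by
    intro k hk
    rw [hEk k hk, bd_rel]
    ext t
    rw [mem_rel]
    constructor
    · rintro ⟨s, hs, rfl⟩
      rw [hmapW k s (hbdW s hs)]; exact hs
    · intro ht
      exact ⟨t, ht, hmapW k t (hbdW t ht)⟩
  have hSFmem : ∀ i, ∀ s ⊆ D.fc i, s ⊆ D.W → s ∈ SF := by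
    intro i s hs hsW
    obtain ⟨t, ht, htt⟩ := hind i
    exact Finset.mem_biUnion.2 ⟨t, ht, Finset.mem_powerset.2
      ((Finset.subset_inter hs hsW).trans htt)⟩
  have hSFW : ∀ s ∈ SF, s ⊆ D.W := by
    intro s hs
    obtain ⟨t, ht, hst⟩ := Finset.mem_biUnion.1 hs
    exact (Finset.mem_powerset.1 hst).trans (hbdW t ht)
  have hfcW : ∀ i, ¬ D.fc i ⊆ D.W := by
    intro i hi
    obtain ⟨t, ht, htt⟩ := hind i
    have h1 : D.fc i ⊆ t := (Finset.subset_inter (Finset.Subset.refl _) hi).trans htt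
    have h2 := Finset.card_le_card h1
    obtain ⟨⟨F, hF, _, hc⟩, _⟩ := mem_bd.1 ht
    rw [ok.card i, hc] at h2
    omega
  refine ⟨(Finset.range (m + 1)).biUnion E, ⟨m, E, ?_, ?_, ?_, rfl⟩, ?_⟩
  · rw [hE0]; exact hQ
  · intro j hj _
    have hj0 : j ≠ 0 := by omega
    rw [hEk j hj0]
    exact ⟨ball_rel hball, rel (φ j) Q, polytope_rel hQ, Finset.map_ssubset_map.2 hBQ⟩
  · intro j hj _
    have hj0 : j ≠ 0 := by omega
    ext s
    simp only [Set.mem_inter_iff, Set.mem_iUnion, exists_prop]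
    constructor
    · rintro ⟨⟨G, hG, hsG⟩, i, hij, G', hG', hsG'⟩
      rw [hEk j hj0] at hG
      obtain ⟨F, hF, rfl⟩ := mem_rel.1 hG
      obtain ⟨a, -, rfl⟩ := Finset.mem_image.1 hF
      obtain ⟨u, hu, rfl⟩ := Finset.subset_map_iff.1 hsG
      have huW : u ⊆ D.W := by
        intro w hw
        exact hX j i hj0 (by omega) w (hfc64 a w (hu hw)) G' hG'
          (hsG' (Finset.mem_map_of_mem _ hw))
      rw [hbdE j hj0, hmapW j u huW]
      obtain ⟨t, ht, htt⟩ := hind a
      exact ⟨t, ht, (Finset.subset_inter hu huW).trans htt⟩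
    · rintro ⟨t, ht, hst⟩
      obtain ⟨⟨G, hG, htG, _⟩, _⟩ := mem_bd.1 ht
      refine ⟨⟨G, hG, hst.trans htG⟩, 0, by omega, ?_⟩
      rw [hbdE j hj0] at ht
      obtain ⟨⟨G', hG', htG', _⟩, _⟩ := mem_bd.1 ht
      rw [hE0]
      exact ⟨G', hBQ.1 hG', hst.trans htG'⟩
  · rintro ⟨F, Finj, Fmem, Fsh⟩
    have hmemE : ∀ k, k ≤ m → ∀ G ∈ E k, G ∈ (Finset.range (m + 1)).biUnion E := by
      intro k hk G hG
      exact Finset.mem_biUnion.2 ⟨k, Finset.mem_range.2 (by omega), hG⟩
    -- index of facet a of copy k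
    have hidx : ∀ k, ∀ a : Fin n, ∃ j, k ≠ 0 → k ≤ m → F j = (D.fc a).map (φ k) := by
      intro k a
      by_cases hk : k ≠ 0 ∧ k ≤ m
      · have h1 : (D.fc a).map (φ k) ∈ E k := by
          rw [hEk k hk.1, map_mem_rel]
          exact Finset.mem_image_of_mem _ (Finset.mem_univ a)
        obtain ⟨j, hj⟩ := (Fmem _).1 (hmemE k hk.2 _ h1)
        exact ⟨j, fun _ _ => hj⟩
      · obtain ⟨G, hG⟩ : Q.Nonempty := by
          obtain ⟨x, hx, _⟩ := Finset.exists_of_ssubset hBQ
          exact ⟨x, hx⟩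
        obtain ⟨j, _⟩ := (Fmem G).1 (hmemE 0 (Nat.zero_le _) G (by rw [hE0]; exact hG))
        exact ⟨j, fun h1 h2 => absurd ⟨h1, h2⟩ hk⟩
    choose idx hidx using hidx
    by_cases hgood : ∃ k, k ≠ 0 ∧ k ≤ m ∧ ∀ a, ∀ s ∈ SF, s ⊆ D.fc a → ∃ j < idx k a, s ⊆ F j
    · obtain ⟨k, hk0, hkm, hg⟩ := hgood
      have hF := fun a => hidx k a hk0 hkm
      have rinj : Function.Injective fun a => (idx k a).val := by
        intro a b hab
        have : idx k a = idx k b := Fin.ext hab
        have h2 : (D.fc a).map (φ k) = (D.fc b).map (φ k) := by rw [← hF a, ← hF b, this]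
        exact finj (Finset.map_injective _ h2)
      apply Lab.no_relative_shelling ok (fun a => (idx k a).val) rinj
      intro i s hs hcov
      -- the face is covered earlier
      have hc1 : ∃ j < idx k i, s.map (φ k) ⊆ F j := by
        rcases hcov with h | ⟨j, hj, hsj⟩
        · obtain ⟨j, hj, hsj⟩ := hg i s (hSFmem i s hs h) hs
          exact ⟨j, hj, by rw [hmapW k s h]; exact hsj⟩
        · exact ⟨idx k j, hj, by rw [hF j]; exact Finset.map_subset_map.2 hsj⟩
      obtain ⟨t', ht'i, hst', ht'c, j, hj, ht'j⟩ := Fsh (idx k i) ⟨hc1.choose, hc1.choose_spec.1⟩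
        (s.map (φ k)) (by rw [hF i]; exact Finset.map_subset_map.2 hs) hc1
      rw [hF i] at ht'i
      obtain ⟨t, hti, rfl⟩ := Finset.subset_map_iff.1 ht'i
      refine ⟨t, hti, Finset.map_subset_map.1 hst', by rw [Finset.card_map] at ht'c; exact ht'c, ?_⟩
      obtain ⟨l, hl, hlE⟩ := Finset.mem_biUnion.1 ((Fmem (F j)).2 ⟨j, rfl⟩)
      by_cases hlk : l = k
      · subst hlk
        rw [hEk l hk0] at hlE
        obtain ⟨G, hG, hGe⟩ := mem_rel.1 hlE
        obtain ⟨b, -, rfl⟩ := Finset.mem_image.1 hG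
        right
        have hjb : j = idx l b := Finj (by rw [hF b]; exact hGe.symm)
        refine ⟨b, ?_, ?_⟩
        · show (idx l b).val < (idx l i).val
          rw [← hjb]; exact hj
        · rw [← hGe] at ht'j
          exact Finset.map_subset_map.1 ht'j
      · left
        intro w hw
        exact hX k l hk0 hlk w (hfc64 i w (hti hw)) (F j) hlE (ht'j (Finset.mem_map_of_mem _ hw))
    · -- all copies bad: pigeonhole
      push Not at hgood
      have hbad : ∀ k : Fin m, ∃ (a : Fin n) (s : Finset ℕ), s ∈ SF ∧ s ⊆ D.fc a ∧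
          ∀ j < idx (k.val + 1) a, ¬ s ⊆ F j := by
        intro k
        obtain ⟨a, s, h1, h2, h3⟩ := hgood (k.val + 1) (by omega) (by omega)
        exact ⟨a, s, h1, h2, h3⟩
      choose a s hs1 hs2 hs3 using hbad
      obtain ⟨k, -, l, -, hkl, hskl⟩ := Finset.exists_ne_map_eq_of_card_lt_of_maps_to
        (s := (Finset.univ : Finset (Fin m))) (t := SF) (f := s)
        (by rw [Finset.card_univ, Fintype.card_fin, hm]; omega) (fun k _ => hs1 k)
      have hFk : ∀ k : Fin m, F (idx (k.val + 1) (a k)) = (D.fc (a k)).map (φ (k.val + 1)) :=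
        fun k => hidx _ _ (by omega) (by omega)
      have hsub : ∀ k : Fin m, s k ⊆ F (idx (k.val + 1) (a k)) := by
        intro k
        rw [hFk k, ← hmapW (k.val + 1) (s k) (hSFW _ (hs1 k))]
        exact Finset.map_subset_map.2 (hs2 k)
      have heq : idx (k.val + 1) (a k) = idx (l.val + 1) (a l) := by
        rcases lt_trichotomy (idx (k.val + 1) (a k)) (idx (l.val + 1) (a l)) with h | h | h
        · exact absurd (by rw [← hskl]; exact hsub k) (hs3 l _ h)
        · exact h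
        · exact absurd (by rw [hskl]; exact hsub l) (hs3 k _ h)
      apply hfcW (a k)
      intro w hw
      have h1 : (D.fc (a l)).map (φ (l.val + 1)) ∈ E (l.val + 1) := by
        rw [hEk _ (by omega), map_mem_rel]
        exact Finset.mem_image_of_mem _ (Finset.mem_univ _)
      refine hX (k.val + 1) (l.val + 1) (by omega) ?_ w (hfc64 _ w hw) _ h1 ?_
      · intro h
        exact hkl (Fin.ext (by omega))
      · rw [← hFk l, ← heq, hFk k]
        exact Finset.mem_map_of_mem _ hw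

end Pool.Q287.Ear
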