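import Pool.Agent.Q287.Ear.PolyQ

/-!
# Tables for the complement of the ball
-/

namespace Pool.Q287.Ear

/-- packed partners -/
def Ptb : ℕ := 0xd36e7bd72efbdefc7bdbbbbbcf0efbcbbef4cfbefbc3beefefbef0b6befbefbeeeee8efbeecefbaacefba3befb9e6efb8e9efbee197befb9bbedf7bb8fbefb7a4efb81cefbee1efb61b4fbefb7fb63b77befb73beddefbedaefb67befbed70bb5bb67b5fbefb5d6efbed6efbefbed5ed353b486efbefb1bb2c1efb30f43b389efbecc37b2c8efbec72bbefb2bb109efbec8efbec417bec7efb13befb0fbefbec303befb03befb0bbec1efb03befbefbefb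

/-- the earlier facet across the triangle omitting vertex number `k` (`59` if there is none) -/
def pt (j k : ℕ) : ℕ := Ptb / 64 ^ (4 * j + k) % 64

end Pool.Q287.Ear
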