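import Pool.Agent.Q287.Ear.Data3

/-!
# Tables for a shelling of the polytope
-/

namespace Pool.Q287.Ear

/-- packed shelling order of the polytope -/
def Lsb : ℕ := 0xb4ab5cbc6644be5a877b3a233cd1321e0ba8aa18ba4524d017080e04acb579ae5633b7827a575bc9604021c7806141620d132c4f720c1f1c39d303a74e6f071611284adaa61530496a6bdfb2a2905476979fbd8c8dde7c99cbb9749bc88183867d65af91705d583d371b38add21d0a02000105203bc2343e0f25b831273fdc68483606142e51d6b69c9e7796a9dba0bf989d55dd8969785e592f53d5c1190973d4a51a102647c0b3a49371ca7f5f6443503522466788c62d5275c395c4b0bbcc7ecd9a85cfa18a8463ce8b6e4c2b42b1c5a3d89492d98f8e6c4dd76d4b29122a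

/-- packed partners -/
def Lpb : ℕ := 0xdedcc2ddcec3ffd2d3dac1ffffcbd9dbdacad7ffd4d8ffffbdff8dd7d5ffd6bbd6ff8effff8fffbcd091b9ffd0c5ffd3ffa9d1ffffc8a6d1ffc7a7ffcfffaaff9aa5c4ffffc3cbcdffc8c0ccc9c6beffffffb8cac9ffb6ffc5b5ffffffff73c7c6ff72ffc570ffffc4ffffffaf6fffffffffc2c0ffbdffc1bfbbffffffff74bfbeff75ffba76ffffffb4ffbcbbb2ffffbaffffffb9ffb1ff78b0ffffffb434b7b6b333ffb532ffffafb1ffffffff83b3b2ff84ffb182ffffb0ffffffa3ff81ffaeff2dffff5d28adffa346acff35ab40ffa236a4a56cffa9ffa86bffff7169a7ffff72a66aff73ffa1ff6fff3e9b38ffff7ba2ffff929bffff9a6ea0ff64999fff6d639eff98669dff60969c656195ff7d94ffffffff1299ff91ff98ff1397ffff8c1596ffff8b9516ff8affff7d9338927cff3789ffff36ffff5590ff8c8f54ffff8e57ff88ff8d5886ffffffff888bff51ff8a8752ffffff7f7a85ffff1f8786ff20ff5321ffff2f7e79ff8233ff835834ffff80ffff577fff5580ff31ff56ffff487e30ff47ffffff7c227bffff247affff27ff78ff792e77ffffffff6c7776ff68ffff4175ffff6b74ff436affff43ffff7271ffff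ff70ff42ff6f41ffff6effffffff5dff6dff3c67ffff62ff686869ffffff43ff69ff42ffffff5effffff5c3b66ffff5b6539ff59ff62ff4d63ff3cff5fffff485e39ff4c605fff4bffff4a3aff3dff47ffffff015cff46ff5bff025affff450459ff4405ff53ffff5756ffffff54ff4eff4dffff54ff4fffffff2150ff50ff4c514fff4bffffff1e4eff494effffff1cff48ffff491bffff4b4affffff49ff19ffff18ffffffffff4717ffffffffff2745ff40ff44253fffffffffff4241ffffff3dffffffffff0c3f3eff0dff2210ffffff2eff3cffff3bffff2cff3affff2b39ffff29ffff10ff37360effff35ffffff2fffff0b21ffff3332ffffff31ffff1f30ffff1c2dff17ff28ff06ffffff062c2811ffffff27ff2bff072affff260829ff250affff00ffffffffff26ff24ff25ff23ffffffff0e2322ff0fffff10ffffffff20ffff1eff1fff1dffffffff1b1d1cff1affff18ffffffff161a19ff15ff1814ffff17ffffffff11ffff05ffff1514ffffff13ffff0312ffff0211ff01ffff00ffffffffff0fff0dff0eff0bffffffff0a0c0bff09ffff08ffffff05ff090804ffff07ffffff06ff03ffff00ffffffffff0403ffffff02ffffff01ffffff00ffffffffffffff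

/-- the shelling order -/
def ls (j : ℕ) : ℕ := Lsb / 256 ^ j % 256

/-- the earlier facet across the triangle omitting vertex number `k` (`255` if there is none) -/
def lp (j k : ℕ) : ℕ := Lpb / 256 ^ (4 * j + k) % 256

end Pool.Q287.Ear
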