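import Mathlib

/-!
# Convex ear decompositions and shellability: definitions

A pure simplicial complex of dimension `d - 1` is given by the family of its facets, a finite family
of sets with `d` elements; its faces are the subsets of the members.
-/

namespace Pool.Q287.Ear

variable {V : Type*} [DecidableEq V]

/-- the faces of the simplicial complex generated by the family `A` -/
def cx (A : Finset (Finset V)) : Set (Finset V) := {s | ∃ F ∈ A, s ⊆ F}

/-- the vertices of the complex generated by `A` -/
def verts (A : Finset (Finset V)) : Finset V := A.biUnion id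

/-- the facets of the boundary complex of the `(d-1)`-dimensional pure complex generated by `A`:
the `(d-1)`-element sets that lie in exactly one facet -/
def bd (d : ℕ) (A : Finset (Finset V)) : Finset (Finset V) :=
  (A.biUnion fun F => F.powersetCard (d - 1)).filter fun t => (A.filter fun F => t ⊆ F).card = 1

/-- `s` is the vertex set of a proper face of the polytope `conv {p x : x ∈ X}`: some linear
functional `f` takes its maximum over `X` exactly at the points of `s` -/
def IsProperFace {d : ℕ} (p : V → (Fin d → ℝ)) (X s : Finset V) : Prop :=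
  s ⊆ X ∧ s ≠ X ∧
    ∃ (f : (Fin d → ℝ) →ₗ[ℝ] ℝ) (c : ℝ), ∀ x ∈ X, f (p x) ≤ c ∧ (f (p x) = c ↔ x ∈ s)

/-- the complex generated by `A` is the boundary complex of a simplicial `d`-polytope: there are
points `p x`, one for every vertex, which affinely span `ℝ^d`, such that the faces of the complex
are exactly the vertex sets of the proper faces of the polytope `conv {p x}` -/
def IsPolytopeBoundary (d : ℕ) (A : Finset (Finset V)) : Prop :=
  (∀ F ∈ A, F.card = d) ∧
  ∃ p : V → (Fin d → ℝ),
    (∀ f : (Fin d → ℝ) →ₗ[ℝ] ℝ,
      (∀ x ∈ verts A, ∀ y ∈ verts A, f (p x) = f (p y)) → f = 0) ∧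
    ∀ s : Finset V, s ∈ cx A ↔ IsProperFace p (verts A) s

/-- `(d-1)`-dimensional (piecewise linear) simplicial balls, by elementary shellings and their
inverses: a simplex is a ball; a ball together with a new simplex `F` that meets it exactly in the
union of some, but not all, of the facets of `F`, all of them in the boundary of the ball, is a
ball; a ball stays a ball when a facet `F` is removed that meets the boundary of the ball exactly
in the union of some, but not all, of the facets of `F` -/
inductive IsBall (d : ℕ) : Finset (Finset V) → Prop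
  | simplex (F : Finset V) : F.card = d → IsBall d {F}
  | glue (A : Finset (Finset V)) (F : Finset V) (T : Finset (Finset V)) :
      IsBall d A → F.card = d → F ∉ A → T.Nonempty → T ⊂ F.powersetCard (d - 1) →
      T ⊆ bd d A → (∀ s ⊆ F, s ∈ cx A ↔ s ∈ cx T) → IsBall d (insert F A)
  | remove (A : Finset (Finset V)) (F : Finset V) (T : Finset (Finset V)) :
      IsBall d A → F ∈ A → T.Nonempty → T ⊂ F.powersetCard (d - 1) →
      (∀ s ⊆ F, s ∈ cx (bd d A) ↔ s ∈ cx T) → IsBall d (A.erase F)

/-- a convex ear decomposition of the `(d-1)`-dimensional complex generated by `A` -/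
def HasConvexEarDecomposition (d : ℕ) (A : Finset (Finset V)) : Prop :=
  ∃ (m : ℕ) (E : ℕ → Finset (Finset V)),
    IsPolytopeBoundary d (E 0) ∧
    (∀ j, 1 ≤ j → j ≤ m → IsBall d (E j) ∧ ∃ S, IsPolytopeBoundary d S ∧ E j ⊂ S) ∧
    (∀ j, 1 ≤ j → j ≤ m → cx (E j) ∩ (⋃ i < j, cx (E i)) = cx (bd d (E j))) ∧
    A = (Finset.range (m + 1)).biUnion E

/-- shellability of the pure `(d-1)`-dimensional complex generated by `A`: its facets can be
ordered `F 0, F 1, …` so that for `j ≥ 1` the complex `⟨F j⟩ ∩ ⟨F 0, …, F (j-1)⟩` is pure of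
dimension `d - 2` -/
def Shellable (d : ℕ) (A : Finset (Finset V)) : Prop :=
  ∃ F : Fin A.card → Finset V, Function.Injective F ∧ (∀ G, G ∈ A ↔ ∃ j, F j = G) ∧
    ∀ j : Fin A.card, (∃ i, i < j) → ∀ s ⊆ F j, (∃ i < j, s ⊆ F i) →
      ∃ t ⊆ F j, s ⊆ t ∧ t.card = d - 1 ∧ ∃ i < j, t ⊆ F i

end Pool.Q287.Ear
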