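import Pool.Agent.Q287.Ear.Data4
import Pool.Agent.Q287.Ear.Copies

/-!
# The ball and its boundary; the counterexample
-/

namespace Pool.Q287.Ear

/-- the triangle of facet `a` omitting vertex number `k` lies in facet `b` -/
def triIn (a k b : ℕ) : Bool := allB 4 fun l => Nat.beq l k || inL b (vv a l)

/-- some -/
def anyB (m : ℕ) (f : ℕ → Bool) : Bool := !(allB m fun k => !f k)

lemma allB_of {f : ℕ → Bool} : ∀ {m : ℕ}, (∀ i < m, f i = true) → allB m f = true
  | 0, _ => rfl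
  | m + 1, h => by
    simp only [allB, Bool.and_eq_true]
    exact ⟨h m (Nat.lt_succ_self m), allB_of fun i hi => h i (Nat.lt_succ_of_lt hi)⟩

lemma anyB_iff {m : ℕ} {f : ℕ → Bool} (h : anyB m f = true) : ∃ k < m, f k = true := by
  by_contra hcon
  push Not at hcon
  have : allB m (fun k => !f k) = true := allB_of fun i hi => by
    have := hcon i hi
    simpa using this
  simp [anyB, this] at h

lemma ck_sh : allB 59 (fun j => Nat.blt 164 (sh j) && Nat.blt (sh j) 224 &&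
    allB 59 fun i => Nat.beq i j || !Nat.beq (sh i) (sh j)) = true := by decide +kernel

lemma ck_shs : allB 59 (fun t => anyB 59 fun j => Nat.beq (sh j) (165 + t)) = true := by
  decide +kernel

lemma ck_pt : allB 59 (fun j => allB 4 fun k =>
    if Nat.beq (pt j k) 59 then true else
      frc (pt j k) fun p => Nat.blt p j && triIn (sh j) k (sh p) &&
        allB j fun i => Nat.beq i p || !triIn (sh j) k (sh i)) = true := by decide +kernel

lemma ck_ptB : allB 59 (fun j => Nat.beq j 0 || (anyB 4 (fun k => !Nat.beq (pt j k) 59) &&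
    anyB 4 (fun k => Nat.beq (pt j k) 59))) = true := by decide +kernel

lemma ck_ptD : allB 59 (fun j => allB j fun i => anyB 4 fun k =>
    !Nat.beq (pt j k) 59 && !inL (sh i) (vv (sh j) k)) = true := by decide +kernel

lemma ck_ls : allB 224 (fun j => Nat.blt (ls j) 224 &&
    allB 224 fun i => Nat.beq i j || !Nat.beq (ls i) (ls j)) = true := by decide +kernel

lemma ck_last : ls 223 = sh 0 := by decide +kernel

lemma ck_lp : allB 223 (fun j => allB 4 fun k =>
    if Nat.beq (lp j k) 255 then true else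
      frc (lp j k) fun p => Nat.blt p j && triIn (ls j) k (ls p) &&
        allB j fun i => Nat.beq i p || !triIn (ls j) k (ls i)) = true := by decide +kernel

lemma ck_lpB : allB 223 (fun j => Nat.beq j 0 || (anyB 4 (fun k => !Nat.beq (lp j k) 255) &&
    anyB 4 (fun k => Nat.beq (lp j k) 255))) = true := by decide +kernel

lemma ck_lpD : allB 223 (fun j => allB j fun i => anyB 4 fun k =>
    !Nat.beq (lp j k) 255 && !inL (ls i) (vv (ls j) k)) = true := by decide +kernel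

lemma ck_two : allB 224 (fun i => allB 224 fun j => Nat.beq i j || !Nat.beq (cnt i j) 3 ||
    (Nat.beq (nq i 0) j || (Nat.beq (nq i 1) j || (Nat.beq (nq i 2) j || Nat.beq (nq i 3) j)))) =
    true := by decide +kernel

lemma ck_bd : allB 165 (fun i => allB 4 fun k => if Nat.beq (nn i k) i then
    (allB 4 fun l => Nat.beq l k || inW (vv i l)) &&
      (allB 165 fun j => Nat.beq j i || !triIn i k j) else true) = true := by decide +kernel

lemma ck_hi : allB 165 (fun i => Nat.blt (hi i) 165 && Nat.beq (nn (hi i) (hk i)) (hi i) &&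
    allB 4 fun l => !inW (vv i l) || (inL (hi i) (vv i l) &&
      !Nat.beq (vv i l) (vv (hi i) (hk i)))) = true := by decide +kernel

lemma erase_sub {a k b : ℕ} (ha : a < 224) (hk : k < 4) :
    (fq a).erase (vv a k) ⊆ fq b ↔ triIn a k b = true := by
  constructor
  · intro h
    apply allB_of
    intro l hl
    by_cases hlk : l = k
    · subst hlk; simp
    · rw [beq_false_of_ne hlk, Bool.false_or, inL_iff, ← mem_fq]
      apply h
      rw [Finset.mem_erase]
      exact ⟨fun e => hlk (vv_inj ha hl hk e), mem_fq'.2 ⟨l, hl, rfl⟩⟩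
  · intro h z hz
    obtain ⟨hz1, hz2⟩ := Finset.mem_erase.1 hz
    obtain ⟨l, hl, rfl⟩ := mem_fq'.1 hz2
    have h2 := allB_iff h l hl
    have hlk : l ≠ k := by rintro rfl; exact hz1 rfl
    rw [beq_false_of_ne hlk, Bool.false_or, inL_iff] at h2
    exact mem_fq.2 h2

lemma erase_inj {a k l : ℕ} (ha : a < 224) (hk : k < 4) (hl : l < 4)
    (h : (fq a).erase (vv a k) = (fq a).erase (vv a l)) : k = l := by
  by_contra hkl
  have : vv a k ∈ (fq a).erase (vv a l) :=
    Finset.mem_erase.2 ⟨fun e => hkl (vv_inj ha hk hl e), mem_fq'.2 ⟨k, hk, rfl⟩⟩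
  rw [← h] at this
  exact (Finset.mem_erase.1 this).1 rfl

lemma erase_card {a k : ℕ} (ha : a < 224) (hk : k < 4) : ((fq a).erase (vv a k)).card = 3 := by
  rw [Finset.card_erase_of_mem (mem_fq'.2 ⟨k, hk, rfl⟩), fq_card ha]

lemma sh_lt {j : ℕ} (hj : j < 59) : 165 ≤ sh j ∧ sh j < 224 := by
  have h := allB_iff ck_sh j hj
  simp only [Bool.and_eq_true, Nat.blt_eq] at h
  exact ⟨h.1.1, h.1.2⟩

lemma sh_inj {i j : ℕ} (hi : i < 59) (hj : j < 59) (h : sh i = sh j) : i = j := by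
  have h1 := allB_iff ck_sh j hj
  simp only [Bool.and_eq_true, Nat.blt_eq] at h1
  have h2 := allB_iff h1.2 i hi
  by_contra hij
  rw [beq_false_of_ne hij, Bool.false_or, h] at h2
  simp at h2

/-- the first `j` facets of an order -/
def KK (o : ℕ → ℕ) (j : ℕ) : Finset (Finset ℕ) := (Finset.range j).image fun i => fq (o i)

lemma mem_KK {o : ℕ → ℕ} {j : ℕ} {F : Finset ℕ} : F ∈ KK o j ↔ ∃ i < j, fq (o i) = F := by
  simp [KK]

lemma KK_succ (o : ℕ → ℕ) (j : ℕ) : KK o (j + 1) = insert (fq (o j)) (KK o j) := by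
  simp [KK, Finset.range_add_one]

attribute [irreducible] KK

/-- certificate of a shelling -/
structure Sh (o : ℕ → ℕ) (pp : ℕ → ℕ → ℕ) (z N : ℕ) : Prop where
  lt : ∀ j < N, o j < 224
  inj : ∀ i < N, ∀ j < N, o i = o j → i = j
  spec : ∀ j < N, ∀ k < 4, pp j k ≠ z → pp j k < j ∧ triIn (o j) k (o (pp j k)) = true ∧
    ∀ i < j, triIn (o j) k (o i) = true → i = pp j k
  B : ∀ j < N, j ≠ 0 → ∃ k < 4, pp j k ≠ z
  C : ∀ j < N, j ≠ 0 → ∃ k < 4, pp j k = z
  D : ∀ j < N, ∀ i < j, ∃ k < 4, pp j k ≠ z ∧ vv (o j) k ∉ LL (o i)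

/-- the triangles met by the new facet -/
def TT (o : ℕ → ℕ) (pp : ℕ → ℕ → ℕ) (z j : ℕ) : Finset (Finset ℕ) :=
  ((Finset.range 4).filter fun k => pp j k ≠ z).image fun k => (fq (o j)).erase (vv (o j) k)

lemma mem_TT {o : ℕ → ℕ} {pp : ℕ → ℕ → ℕ} {z j : ℕ} {t : Finset ℕ} :
    t ∈ TT o pp z j ↔ ∃ k < 4, pp j k ≠ z ∧ (fq (o j)).erase (vv (o j) k) = t := by
  simp only [TT, Finset.mem_image, Finset.mem_filter, Finset.mem_range, and_assoc]

attribute [irreducible] TT

section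
variable {o : ℕ → ℕ} {pp : ℕ → ℕ → ℕ} {z N : ℕ}

lemma Sh.TT_ne (h : Sh o pp z N) {j : ℕ} (hj : j < N) (h0 : j ≠ 0) : (TT o pp z j).Nonempty := by
  obtain ⟨k, hk, hk'⟩ := h.B j hj h0
  exact ⟨_, mem_TT.2 ⟨k, hk, hk', rfl⟩⟩

lemma Sh.TT_ss (h : Sh o pp z N) {j : ℕ} (hj : j < N) (h0 : j ≠ 0) :
    TT o pp z j ⊂ (fq (o j)).powersetCard (4 - 1) := by
  have hs := h.lt j hj
  obtain ⟨k2, hk2, hk2'⟩ := h.C j hj h0
  rw [Finset.ssubset_iff_of_subset]
  · refine ⟨(fq (o j)).erase (vv (o j) k2), ?_, ?_⟩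
    · rw [Finset.mem_powersetCard]
      exact ⟨Finset.erase_subset _ _, erase_card hs hk2⟩
    · intro hmem
      obtain ⟨k, hk, hk', he⟩ := mem_TT.1 hmem
      have := erase_inj hs hk hk2 he
      rw [this] at hk'
      exact hk' hk2'
  · intro t ht
    obtain ⟨k, hk, _, rfl⟩ := mem_TT.1 ht
    rw [Finset.mem_powersetCard]
    exact ⟨Finset.erase_subset _ _, erase_card hs hk⟩

lemma Sh.cov (h : Sh o pp z N) {j : ℕ} (hj : j < N) {i : ℕ} (hi : i < j) {s : Finset ℕ}
    (hsF : s ⊆ fq (o j)) (hsG : s ⊆ fq (o i)) : s ∈ cx (TT o pp z j) := by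
  obtain ⟨k, hk, hk', hk''⟩ := h.D j hj i hi
  refine ⟨_, mem_TT.2 ⟨k, hk, hk', rfl⟩, fun y hy => ?_⟩
  rw [Finset.mem_erase]
  refine ⟨?_, hsF hy⟩
  rintro rfl
  exact hk'' (mem_fq.1 (hsG hy))

lemma ball_KK (h : Sh o pp z N) : ∀ j, j < N → IsBall 4 (KK o (j + 1)) := by
  intro j
  induction j with
  | zero =>
    intro h0
    have : KK o (0 + 1) = {fq (o 0)} := by
      ext F
      rw [mem_KK, Finset.mem_singleton]
      constructor
      · rintro ⟨i, hi, rfl⟩
        have : i = 0 := by omega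
        rw [this]
      · rintro rfl
        exact ⟨0, by omega, rfl⟩
    rw [this]
    exact IsBall.simplex _ (fq_card (h.lt 0 h0))
  | succ j ih =>
    intro hj
    have hb := ih (by omega)
    have hs := h.lt (j + 1) hj
    rw [KK_succ]
    refine IsBall.glue _ _ (TT o pp z (j + 1)) hb (fq_card hs) ?_ (h.TT_ne hj (by omega))
      (h.TT_ss hj (by omega)) ?_ ?_
    · intro hmem
      obtain ⟨i, hi, he⟩ := mem_KK.1 hmem
      have := h.inj i (by omega) (j + 1) hj (fq_inj (h.lt i (by omega)) hs he)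
      omega
    · intro t ht
      obtain ⟨k, hk, hk', rfl⟩ := mem_TT.1 ht
      obtain ⟨p1, p2, p3⟩ := h.spec (j + 1) hj k hk hk'
      rw [mem_bd]
      refine ⟨⟨fq (o (pp (j + 1) k)), mem_KK.2 ⟨_, p1, rfl⟩, (erase_sub hs hk).2 p2,
        erase_card hs hk⟩, ?_⟩
      rw [Finset.card_eq_one]
      refine ⟨fq (o (pp (j + 1) k)), ?_⟩
      ext G
      rw [Finset.mem_filter, Finset.mem_singleton]
      constructor
      · rintro ⟨hG, hsub⟩
        obtain ⟨i, hi, rfl⟩ := mem_KK.1 hG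
        rw [p3 i hi ((erase_sub hs hk).1 hsub)]
      · rintro rfl
        exact ⟨mem_KK.2 ⟨_, p1, rfl⟩, (erase_sub hs hk).2 p2⟩
    · intro s hsF
      constructor
      · rintro ⟨G, hG, hsG⟩
        obtain ⟨i, hi, rfl⟩ := mem_KK.1 hG
        exact h.cov hj hi hsF hsG
      · rintro ⟨t, ht, hst⟩
        obtain ⟨k, hk, hk', rfl⟩ := mem_TT.1 ht
        obtain ⟨p1, p2, p3⟩ := h.spec (j + 1) hj k hk hk'
        exact ⟨_, mem_KK.2 ⟨_, p1, rfl⟩, hst.trans ((erase_sub hs hk).2 p2)⟩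

end

lemma sh_A : Sh sh pt 59 59 where
  lt j hj := (sh_lt hj).2
  inj i hi j hj h := sh_inj hi hj h
  spec j hj k hk h := by
    have h1 := allB_iff ck_pt j hj
    have h2 := allB_iff h1 k hk
    rw [if_neg (by rw [beq_false_of_ne h]; simp), frc_eq] at h2
    simp only [Bool.and_eq_true, Nat.blt_eq] at h2
    refine ⟨h2.1.1, h2.1.2, fun i hi ht => ?_⟩
    have h3 := allB_iff h2.2 i hi
    by_contra hne
    rw [beq_false_of_ne hne, ht] at h3
    simp at h3
  B j hj h0 := by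
    have hBC := allB_iff ck_ptB j hj
    rw [beq_false_of_ne h0, Bool.false_or, Bool.and_eq_true] at hBC
    obtain ⟨k1, hk1, hk1'⟩ := anyB_iff hBC.1
    refine ⟨k1, hk1, fun h => ?_⟩
    rw [h] at hk1'; simp at hk1'
  C j hj h0 := by
    have hBC := allB_iff ck_ptB j hj
    rw [beq_false_of_ne h0, Bool.false_or, Bool.and_eq_true] at hBC
    obtain ⟨k2, hk2, hk2'⟩ := anyB_iff hBC.2
    exact ⟨k2, hk2, Nat.eq_of_beq_eq_true hk2'⟩
  D j hj i hi := by
    have h1 := allB_iff ck_ptD j hj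
    obtain ⟨k, hk, hk'⟩ := anyB_iff (allB_iff h1 i hi)
    simp only [Bool.and_eq_true, Bool.not_eq_true'] at hk'
    refine ⟨k, hk, fun h => ?_, inLf.1 hk'.2⟩
    rw [h] at hk'; simp at hk'

lemma ls_lt {j : ℕ} (hj : j < 224) : ls j < 224 := by
  have h := allB_iff ck_ls j hj
  simp only [Bool.and_eq_true, Nat.blt_eq] at h
  exact h.1

lemma ls_inj {i j : ℕ} (hi : i < 224) (hj : j < 224) (h : ls i = ls j) : i = j := by
  have h1 := allB_iff ck_ls j hj
  simp only [Bool.and_eq_true, Nat.blt_eq] at h1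
  have h2 := allB_iff h1.2 i hi
  by_contra hij
  rw [beq_false_of_ne hij, Bool.false_or, h] at h2
  simp at h2

lemma sh_L : Sh ls lp 255 223 where
  lt j hj := ls_lt (by omega)
  inj i hi j hj h := ls_inj (by omega) (by omega) h
  spec j hj k hk h := by
    have h1 := allB_iff ck_lp j hj
    have h2 := allB_iff h1 k hk
    rw [if_neg (by rw [beq_false_of_ne h]; simp), frc_eq] at h2
    simp only [Bool.and_eq_true, Nat.blt_eq] at h2
    refine ⟨h2.1.1, h2.1.2, fun i hi ht => ?_⟩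
    have h3 := allB_iff h2.2 i hi
    by_contra hne
    rw [beq_false_of_ne hne, ht] at h3
    simp at h3
  B j hj h0 := by
    have hBC := allB_iff ck_lpB j hj
    rw [beq_false_of_ne h0, Bool.false_or, Bool.and_eq_true] at hBC
    obtain ⟨k1, hk1, hk1'⟩ := anyB_iff hBC.1
    refine ⟨k1, hk1, fun h => ?_⟩
    rw [h] at hk1'; simp at hk1'
  C j hj h0 := by
    have hBC := allB_iff ck_lpB j hj
    rw [beq_false_of_ne h0, Bool.false_or, Bool.and_eq_true] at hBC
    obtain ⟨k2, hk2, hk2'⟩ := anyB_iff hBC.2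
    exact ⟨k2, hk2, Nat.eq_of_beq_eq_true hk2'⟩
  D j hj i hi := by
    have h1 := allB_iff ck_lpD j hj
    obtain ⟨k, hk, hk'⟩ := anyB_iff (allB_iff h1 i hi)
    simp only [Bool.and_eq_true, Bool.not_eq_true'] at hk'
    refine ⟨k, hk, fun h => ?_, inLf.1 hk'.2⟩
    rw [h] at hk'; simp at hk'

/-- the only other facet of the polytope through a triangle -/
lemma two_facets {a k b : ℕ} (ha : a < 224) (hk : k < 4) (hb : b < 224) (hab : b ≠ a)
    (h : triIn a k b = true) : b = nq a k := by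
  have hl : ∀ l < 4, l ≠ k → vv a l ∈ LL b := by
    intro l hl hlk
    have h2 := allB_iff h l hl
    rwa [beq_false_of_ne hlk, Bool.false_or, inL_iff] at h2
  have h4 := allB_iff (allB_iff ck_inj a ha) b hb
  rw [beq_false_of_ne (Ne.symm hab), Bool.false_or, Nat.blt_eq] at h4
  have h3 : cnt a b = 3 := by
    have hge : 3 ≤ cnt a b := by
      unfold cnt
      rw [msk_bit, msk_bit, msk_bit, msk_bit]
      rcases (by omega : k = 0 ∨ k = 1 ∨ k = 2 ∨ k = 3) with e | e | e | e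
      · rw [if_pos (hl 1 (by omega) (by omega)), if_pos (hl 2 (by omega) (by omega)),
          if_pos (hl 3 (by omega) (by omega))]; omega
      · rw [if_pos (hl 0 (by omega) (by omega)), if_pos (hl 2 (by omega) (by omega)),
          if_pos (hl 3 (by omega) (by omega))]; omega
      · rw [if_pos (hl 0 (by omega) (by omega)), if_pos (hl 1 (by omega) (by omega)),
          if_pos (hl 3 (by omega) (by omega))]; omega
      · rw [if_pos (hl 0 (by omega) (by omega)), if_pos (hl 1 (by omega) (by omega)),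
          if_pos (hl 2 (by omega) (by omega))]; omega
    omega
  have h5 := allB_iff (allB_iff ck_two a ha) b hb
  rw [beq_false_of_ne (Ne.symm hab), Bool.false_or, h3] at h5
  have h6 : ∃ k' < 4, nq a k' = b := by
    simp only [Nat.beq_refl, Bool.not_true, Bool.false_or, Bool.or_eq_true, Nat.beq_eq] at h5
    rcases h5 with e | e | e | e
    · exact ⟨0, by omega, e⟩
    · exact ⟨1, by omega, e⟩
    · exact ⟨2, by omega, e⟩
    · exact ⟨3, by omega, e⟩
  obtain ⟨k', hk', he⟩ := h6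
  by_cases hkk : k' = k
  · rw [← hkk, he]
  · exfalso
    have := ((shr_nq ha hk').2 k' hk').1 rfl
    rw [he] at this
    exact this (hl k' hk' hkk)

lemma nq_ne {a k : ℕ} (ha : a < 224) (hk : k < 4) : nq a k ≠ a := by
  intro h
  have := ((shr_nq ha hk).2 k hk).1 rfl
  rw [h] at this
  exact this (mem_LL.2 ⟨k, hk, rfl⟩)

lemma nq_tri {a k : ℕ} (ha : a < 224) (hk : k < 4) : (fq a).erase (vv a k) ⊆ fq (nq a k) := by
  intro y hy
  obtain ⟨hy1, hy2⟩ := Finset.mem_erase.1 hy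
  obtain ⟨l, hl, rfl⟩ := mem_fq'.1 hy2
  exact mem_fq.2 (((shr_nq ha hk).2 l hl).2 (fun e => hy1 (by rw [e])))

lemma tri_of_card {a : ℕ} (ha : a < 224) {t : Finset ℕ} (ht : t ⊆ fq a) (hc : t.card = 3) :
    ∃ k < 4, t = (fq a).erase (vv a k) := by
  obtain ⟨x, hx, hxt⟩ : ∃ x ∈ fq a, x ∉ t := by
    by_contra hcon
    push Not at hcon
    have := Finset.card_le_card (show fq a ⊆ t from hcon)
    rw [fq_card ha, hc] at this
    omega
  obtain ⟨k, hk, rfl⟩ := mem_fq'.1 hx
  refine ⟨k, hk, ?_⟩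
  apply Finset.eq_of_subset_of_card_le
  · intro z hz
    rw [Finset.mem_erase]
    exact ⟨fun e => hxt (e ▸ hz), ht hz⟩
  · rw [erase_card ha hk, hc]

lemma ball_rem : ∀ i, i < 59 → IsBall 4 (QQ \ KK sh (i + 1)) := by
  intro i
  induction i with
  | zero =>
    intro _
    have : QQ \ KK sh (0 + 1) = KK ls (222 + 1) := by
      ext F
      rw [Finset.mem_sdiff, mem_QQ, mem_KK, mem_KK]
      constructor
      · rintro ⟨⟨a, ha, rfl⟩, hn⟩
        -- surjectivity of ls
        have hsurj : Set.SurjOn ls (Finset.range 224) (Finset.range 224) := by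
          apply Finset.surjOn_of_injOn_of_card_le
          · intro j hj
            simp only [Finset.coe_range, Set.mem_Iio] at hj ⊢
            exact ls_lt hj
          · intro x hx y hy hxy
            simp only [Finset.coe_range, Set.mem_Iio] at hx hy
            exact ls_inj hx hy hxy
          · exact le_rfl
        obtain ⟨j, hj, hja⟩ := hsurj (by simpa using ha : a ∈ ((Finset.range 224 : Finset ℕ) : Set ℕ))
        simp only [Finset.coe_range, Set.mem_Iio] at hj
        have hj2 : j ≠ 223 := by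
          rintro rfl
          exact hn ⟨0, by omega, by rw [← ck_last, hja]⟩
        exact ⟨j, by omega, by rw [hja]⟩
      · rintro ⟨j, hj, rfl⟩
        refine ⟨⟨ls j, ls_lt (by omega), rfl⟩, ?_⟩
        rintro ⟨i, hi, he⟩
        have hi0 : i = 0 := by omega
        rw [hi0, ← ck_last] at he
        have := ls_inj (by norm_num) (by omega) (fq_inj (ls_lt (by norm_num)) (ls_lt (by omega)) he)
        omega
    rw [this]
    exact ball_KK sh_L 222 (by norm_num)
  | succ i ih =>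
    intro hi
    have hb := ih (by omega)
    have hs := (sh_lt hi).2
    have hnot : fq (sh (i + 1)) ∉ KK sh (i + 1) := by
      intro hm
      obtain ⟨i', hi', he⟩ := mem_KK.1 hm
      have := sh_inj (by omega) hi (fq_inj (sh_lt (by omega)).2 hs he)
      omega
    have hM : QQ \ KK sh (i + 1 + 1) = (QQ \ KK sh (i + 1)).erase (fq (sh (i + 1))) := by
      rw [KK_succ]
      ext F
      simp only [Finset.mem_sdiff, Finset.mem_insert, Finset.mem_erase]
      tauto
    rw [hM]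
    have hFQ : fq (sh (i + 1)) ∈ QQ \ KK sh (i + 1) :=
      Finset.mem_sdiff.2 ⟨mem_QQ.2 ⟨_, hs, rfl⟩, hnot⟩
    refine IsBall.remove _ _ (TT sh pt 59 (i + 1)) hb hFQ (sh_A.TT_ne hi (by omega))
      (sh_A.TT_ss hi (by omega)) ?_
    intro s hsF
    constructor
    · rintro ⟨t, ht, hst⟩
      obtain ⟨⟨G, hG, htG, hc⟩, h1⟩ := mem_bd.1 ht
      obtain ⟨hGQ, hGn⟩ := Finset.mem_sdiff.1 hG
      obtain ⟨g, hg, rfl⟩ := mem_QQ.1 hGQ
      obtain ⟨k, hk, rfl⟩ := tri_of_card hg htG hc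
      have hnl := (shr_nq hg hk).1
      by_cases hin : fq (nq g k) ∈ QQ \ KK sh (i + 1)
      · exfalso
        obtain ⟨H, hH⟩ := Finset.card_eq_one.1 h1
        have m1 : fq g ∈ (QQ \ KK sh (i + 1)).filter fun F => (fq g).erase (vv g k) ⊆ F :=
          Finset.mem_filter.2 ⟨hG, Finset.erase_subset _ _⟩
        have m2 : fq (nq g k) ∈ (QQ \ KK sh (i + 1)).filter fun F => (fq g).erase (vv g k) ⊆ F :=
          Finset.mem_filter.2 ⟨hin, nq_tri hg hk⟩
        rw [hH, Finset.mem_singleton] at m1 m2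
        exact nq_ne hg hk (fq_inj hnl hg (m2.trans m1.symm))
      · have : fq (nq g k) ∈ KK sh (i + 1) := by
          by_contra hcon
          exact hin (Finset.mem_sdiff.2 ⟨mem_QQ.2 ⟨_, hnl, rfl⟩, hcon⟩)
        obtain ⟨i', hi', he⟩ := mem_KK.1 this
        exact sh_A.cov hi hi' hsF (by rw [he]; exact hst.trans (nq_tri hg hk))
    · rintro ⟨t, ht, hst⟩
      obtain ⟨k, hk, hk', rfl⟩ := mem_TT.1 ht
      obtain ⟨p1, p2, p3⟩ := sh_A.spec (i + 1) hi k hk hk'
      refine ⟨_, mem_bd.2 ⟨⟨_, hFQ, Finset.erase_subset _ _, erase_card hs hk⟩, ?_⟩, hst⟩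
      rw [Finset.card_eq_one]
      refine ⟨fq (sh (i + 1)), ?_⟩
      have hp59 : pt (i + 1) k < 59 := by omega
      have hne : sh (pt (i + 1) k) ≠ sh (i + 1) := by
        intro e
        have := sh_inj hp59 hi e
        omega
      have hpq := two_facets hs hk (sh_lt hp59).2 hne p2
      ext G
      rw [Finset.mem_filter, Finset.mem_singleton]
      constructor
      · rintro ⟨hG, hsub⟩
        obtain ⟨hGQ, hGn⟩ := Finset.mem_sdiff.1 hG
        obtain ⟨g, hg, rfl⟩ := mem_QQ.1 hGQ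
        by_cases hgs : g = sh (i + 1)
        · rw [hgs]
        · exfalso
          have := two_facets hs hk hg hgs ((erase_sub hs hk).1 hsub)
          rw [← hpq] at this
          exact hGn (mem_KK.2 ⟨_, p1, by rw [this]⟩)
      · rintro rfl
        exact ⟨hFQ, Finset.erase_subset _ _⟩

/-- the ball -/
def BB : Finset (Finset ℕ) := Finset.univ.image DD.fc

lemma fc_eq (i : Fin 165) : DD.fc i = fq i.val := rfl

lemma mem_BB {F : Finset ℕ} : F ∈ BB ↔ ∃ i < 165, fq i = F := by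
  unfold BB
  rw [Finset.mem_image]
  constructor
  · rintro ⟨i, -, rfl⟩
    exact ⟨i.val, i.isLt, rfl⟩
  · rintro ⟨i, hi, rfl⟩
    exact ⟨⟨i, hi⟩, Finset.mem_univ _, rfl⟩

lemma BB_def : BB = Finset.univ.image DD.fc := rfl

attribute [irreducible] BB

lemma BB_eq : BB = QQ \ KK sh (58 + 1) := by
  ext F
  rw [mem_BB, Finset.mem_sdiff, mem_QQ, mem_KK]
  constructor
  · rintro ⟨i, hi, rfl⟩
    refine ⟨⟨i, by omega, rfl⟩, ?_⟩
    rintro ⟨j, hj, he⟩
    have h1 := fq_inj (sh_lt (by omega)).2 (by omega) he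
    have := (sh_lt (show j < 59 by omega)).1
    omega
  · rintro ⟨⟨i, hi, rfl⟩, hn⟩
    by_cases h : i < 165
    · exact ⟨i, h, rfl⟩
    · exfalso
      have h1 := allB_iff ck_shs (i - 165) (by omega)
      obtain ⟨j, hj, hj'⟩ := anyB_iff h1
      rw [Nat.beq_eq] at hj'
      have e : sh j = i := by rw [hj']; omega
      exact hn ⟨j, by omega, by rw [e]⟩

theorem ball_BB : IsBall 4 BB := by
  rw [BB_eq]
  exact ball_rem 58 (by norm_num)

lemma BB_ss : BB ⊂ QQ := by
  rw [Finset.ssubset_iff_of_subset]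
  · refine ⟨fq 165, mem_QQ.2 ⟨165, by norm_num, rfl⟩, ?_⟩
    intro h
    obtain ⟨j, hj, he⟩ := mem_BB.1 h
    have := fq_inj (by omega) (by norm_num) he
    omega
  · intro F hF
    obtain ⟨j, hj, rfl⟩ := mem_BB.1 hF
    exact mem_QQ.2 ⟨j, by omega, rfl⟩

lemma bd_spec {i k : ℕ} (hi : i < 165) (hk : k < 4) (h : nn i k = i) :
    (∀ l < 4, l ≠ k → vv i l ∈ Wl) ∧ ∀ j < 165, triIn i k j = true → j = i := by
  have h1 := allB_iff ck_bd i hi
  have h2 := allB_iff h1 k hk
  rw [if_pos (by rw [h]; exact Nat.beq_refl i), Bool.and_eq_true] at h2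
  refine ⟨fun l hl hlk => ?_, fun j hj ht => ?_⟩
  · have h3 := allB_iff h2.1 l hl
    rw [beq_false_of_ne hlk, Bool.false_or, inW_iff (vv_lt _ _)] at h3
    exact h3
  · have h3 := allB_iff h2.2 j hj
    by_contra hne
    rw [beq_false_of_ne hne, ht] at h3
    simp at h3

lemma bd_mem {i k : ℕ} (hi : i < 165) (hk : k < 4) (h : nn i k = i) :
    (fq i).erase (vv i k) ∈ bd 4 BB := by
  obtain ⟨_, h2⟩ := bd_spec hi hk h
  have hi' : i < 224 := by omega
  rw [mem_bd]
  refine ⟨⟨fq i, mem_BB.2 ⟨i, hi, rfl⟩, Finset.erase_subset _ _, erase_card hi' hk⟩, ?_⟩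
  rw [Finset.card_eq_one]
  refine ⟨fq i, ?_⟩
  ext G
  rw [Finset.mem_filter, Finset.mem_singleton]
  constructor
  · rintro ⟨hG, hsub⟩
    obtain ⟨j, hj, rfl⟩ := mem_BB.1 hG
    rw [h2 j hj ((erase_sub hi' hk).1 hsub)]
  · rintro rfl
    exact ⟨mem_BB.2 ⟨i, hi, rfl⟩, Finset.erase_subset _ _⟩

lemma bd_W : ∀ t ∈ bd 4 BB, t ⊆ DD.W := by
  intro t ht
  obtain ⟨⟨F, hF, htF, hc⟩, h1⟩ := mem_bd.1 ht
  obtain ⟨i, hi, rfl⟩ := mem_BB.1 hF
  have hi' : i < 224 := by omega
  obtain ⟨x, hx, hxt⟩ : ∃ x ∈ fq i, x ∉ t := by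
    by_contra hcon
    push Not at hcon
    have := Finset.card_le_card (show fq i ⊆ t from hcon)
    rw [fq_card hi', hc] at this
    omega
  obtain ⟨k, hk, rfl⟩ := mem_fq'.1 hx
  have hte : t = (fq i).erase (vv i k) := by
    apply Finset.eq_of_subset_of_card_le
    · intro z hz
      rw [Finset.mem_erase]
      exact ⟨fun e => hxt (e ▸ hz), htF hz⟩
    · rw [erase_card hi' hk, hc]
  by_cases hn : nn i k = i
  · intro z hz
    rw [hte] at hz
    obtain ⟨hz1, hz2⟩ := Finset.mem_erase.1 hz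
    obtain ⟨l, hl, rfl⟩ := mem_fq'.1 hz2
    rw [mem_W]
    exact (bd_spec hi hk hn).1 l hl (fun e => hz1 (by rw [e]))
  · exfalso
    have hlt : nn i k < 165 := Nat.mod_lt _ (by norm_num)
    have hsub : t ⊆ fq (nn i k) := by
      intro z hz
      rw [hte] at hz
      obtain ⟨hz1, hz2⟩ := Finset.mem_erase.1 hz
      obtain ⟨l, hl, rfl⟩ := mem_fq'.1 hz2
      rw [mem_fq]
      exact (shr_of (i := ⟨i, hi⟩) (j := ⟨nn i k, hlt⟩) hk rfl
        (fun e => hn (congrArg Fin.val e)) l hl).2 (fun e => hz1 (by rw [e]))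
    obtain ⟨G, hG⟩ := Finset.card_eq_one.1 h1
    have m1 : fq i ∈ BB.filter fun F => t ⊆ F :=
      Finset.mem_filter.2 ⟨mem_BB.2 ⟨i, hi, rfl⟩, htF⟩
    have m2 : fq (nn i k) ∈ BB.filter fun F => t ⊆ F :=
      Finset.mem_filter.2 ⟨mem_BB.2 ⟨_, hlt, rfl⟩, hsub⟩
    rw [hG, Finset.mem_singleton] at m1 m2
    have := fq_inj (by omega) hi' (m2.trans m1.symm)
    exact hn this

lemma ind_W (i : Fin 165) : ∃ t ∈ bd 4 BB, DD.fc i ∩ DD.W ⊆ t := by
  have h := allB_iff ck_hi i.val i.isLt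
  simp only [Bool.and_eq_true, Nat.blt_eq, Nat.beq_eq] at h
  obtain ⟨⟨h1, h2⟩, h3⟩ := h
  have hk4 : hk i.val < 4 := Nat.mod_lt _ (by norm_num)
  refine ⟨_, bd_mem h1 hk4 h2, fun z hz => ?_⟩
  obtain ⟨hz1, hz2⟩ := Finset.mem_inter.1 hz
  obtain ⟨l, hl, rfl⟩ := mem_LL.1 ((mem_fc _ _).1 hz1)
  have h4 := allB_iff h3 l hl
  rw [(inW_iff (vv_lt _ _)).2 ((mem_W _).1 hz2)] at h4
  simp only [Bool.not_true, Bool.false_or, Bool.and_eq_true, inL_iff, Bool.not_eq_true'] at h4
  rw [Finset.mem_erase]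
  refine ⟨fun e => ?_, mem_fq.2 h4.1⟩
  rw [e] at h4
  simp at h4

lemma DD_inj : Function.Injective DD.fc := by
  intro i j h
  rw [fc_eq, fc_eq] at h
  exact Fin.ext (fq_inj (by omega) (by omega) h)

lemma QQ_lt : ∀ F ∈ QQ, ∀ v ∈ F, v < 64 := by
  intro F hF v hv
  have := verts_lt (mem_verts.2 ⟨F, hF, hv⟩)
  omega

lemma Wl_lt : ∀ w ∈ Wl, w < 64 := by decide

lemma W_lt : ∀ w ∈ DD.W, w < 64 := by
  intro w hw
  rw [mem_W] at hw
  exact Wl_lt w hw

theorem main : ∃ A : Finset (Finset ℕ), HasConvexEarDecomposition 4 A ∧ ¬ Shellable 4 A := by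
  have h := many_copies DD ball_ok DD_inj QQ poly_QQ
  rw [← BB_def] at h
  exact h BB_ss ball_BB QQ_lt W_lt ind_W bd_W

end Pool.Q287.Ear
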