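import Pool.Agent.Q287.Ear.Final

/-!
# MP_cf6e1a_co: a complex with a convex ear decomposition which is not shellable

The definitions `cx`, `verts`, `bd`, `IsProperFace`, `IsPolytopeBoundary`, `IsBall`,
`HasConvexEarDecomposition` and `Shellable` are in `Pool.Agent.Q287.Ear.Defs`.

Idea of the proof. `Q` is an explicit simplicial 4-polytope with 46 vertices and 224 facets, made
from the cyclic 4-polytope with 7 vertices, whose graph contains a 7-cycle that is a trefoil, by
stellar subdivisions. `B` is a 3-ball in its boundary (165 tetrahedra) whose boundary sphere is an
induced subcomplex and which contains a knotted spanning arc with two edges. A colouring (a map of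
the group of the arc onto the symmetric group `S₃`) shows that `B` has no relative shelling
relative to its boundary. `Δ` is the boundary of `Q` together with more copies of `B` than
`∂B` has faces, all glued along `∂B`. In a shelling of `Δ`, some copy would never cover a new face
of `∂B`, and then its facets would form a relative shelling.
-/

namespace Pool.Agent.Q287.Ear.NotShellable

open Pool.Q287.Ear

/-- There is a 3-dimensional simplicial complex which admits a convex ear decomposition and is not
shellable. -/
theorem result : ∃ A : Finset (Finset ℕ), HasConvexEarDecomposition 4 A ∧ ¬ Shellable 4 A :=
  Pool.Q287.Ear.main

end Pool.Agent.Q287.Ear.NotShellable
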