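import Pool.Agent.Q287.Ear.Defs

/-!
# A criterion for boundary complexes of simplicial polytopes
-/

namespace Pool.Q287.Ear

variable {V : Type*} [DecidableEq V]

lemma mem_verts {A : Finset (Finset V)} {x : V} : x ∈ verts A ↔ ∃ F ∈ A, x ∈ F := by
  simp [verts]

lemma exists_eps {X : Finset V} {a b : V → ℝ} (ha : ∀ x ∈ X, a x < 1) (hb : ∀ x ∈ X, 0 ≤ b x) :
    ∃ ε : ℝ, 0 < ε ∧ ∀ x ∈ X, a x + ε * b x < 1 := by
  induction X using Finset.induction_on with
  | empty => exact ⟨1, one_pos, by simp⟩
  | @insert y X hy ih =>
    obtain ⟨e1, h1, h2⟩ := ih (fun x hx => ha x (Finset.mem_insert_of_mem hx))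
      (fun x hx => hb x (Finset.mem_insert_of_mem hx))
    have hay := ha y (Finset.mem_insert_self _ _)
    have hby := hb y (Finset.mem_insert_self _ _)
    refine ⟨min e1 ((1 - a y) / (2 * (b y + 1))), ?_, ?_⟩
    · apply lt_min h1
      apply div_pos (by linarith) (by linarith)
    · intro x hx
      rcases Finset.mem_insert.1 hx with rfl | hx
      · have h3 : min e1 ((1 - a x) / (2 * (b x + 1))) * b x ≤
            (1 - a x) / (2 * (b x + 1)) * b x :=
          mul_le_mul_of_nonneg_right (min_le_right _ _) hby
        have h4 : (1 - a x) / (2 * (b x + 1)) * b x < 1 - a x := by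
          rw [div_mul_eq_mul_div, div_lt_iff₀ (by linarith)]
          nlinarith
        linarith
      · have h3 : min e1 ((1 - a y) / (2 * (b y + 1))) * b x ≤ e1 * b x :=
          mul_le_mul_of_nonneg_right (min_le_left _ _) (hb x (Finset.mem_insert_of_mem hx))
        have := h2 x hx
        linarith

theorem polytope_of {d : ℕ} (hd : 0 < d) (A : Finset (Finset V)) (hne : A.Nonempty)
    (hcard : ∀ F ∈ A, F.card = d) (p : V → (Fin d → ℝ))
    (α : Finset V → ((Fin d → ℝ) →ₗ[ℝ] ℝ)) (β : Finset V → V → ((Fin d → ℝ) →ₗ[ℝ] ℝ))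
    (h1 : ∀ F ∈ A, ∀ x ∈ F, α F (p x) = 1)
    (h1' : ∀ F ∈ A, ∀ x ∈ verts A, x ∉ F → α F (p x) < 1)
    (h2 : ∀ F ∈ A, ∀ i ∈ F, ∀ j ∈ F, β F i (p j) = if i = j then 1 else 0)
    (h2' : ∀ F ∈ A, ∀ z, z = ∑ i ∈ F, β F i z • p i)
    (h3 : ∀ F ∈ A, ∀ j ∈ F, ∃ F' ∈ A, F.erase j ⊆ F' ∧ F' ≠ F)
    (h4 : ∀ f : (Fin d → ℝ) →ₗ[ℝ] ℝ, f ≠ 0 → ∃ x ∈ verts A, 0 < f (p x)) :
    IsPolytopeBoundary d A := by
  have hFX : ∀ F ∈ A, F ⊆ verts A := fun F hF x hx => mem_verts.2 ⟨F, hF, hx⟩
  have hF0 : ∀ F ∈ A, F.Nonempty := by
    intro F hF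
    rw [← Finset.card_pos, hcard F hF]; exact hd
  have hFne : ∀ F ∈ A, F ≠ verts A := by
    intro F hF he
    have hn : -α F ≠ 0 := by
      intro h
      obtain ⟨x, hx⟩ := hF0 F hF
      have e1 := h1 F hF x hx
      have : α F = 0 := by simpa using h
      rw [this] at e1
      simp at e1
    obtain ⟨x, hx, hpos⟩ := h4 _ hn
    rw [← he] at hx
    have := h1 F hF x hx
    simp only [LinearMap.neg_apply] at hpos
    linarith
  refine ⟨hcard, p, ?_, ?_⟩
  · intro f hf
    by_contra hne0
    obtain ⟨x, hx, hxp⟩ := h4 f hne0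
    obtain ⟨y, hy, hyp⟩ := h4 (-f) (by simpa using hne0)
    have := hf x hx y hy
    simp only [LinearMap.neg_apply] at hyp
    linarith
  · intro s
    constructor
    · rintro ⟨F, hF, hsF⟩
      refine ⟨hsF.trans (hFX F hF), ?_, ?_⟩
      · intro he
        apply hFne F hF
        exact Finset.Subset.antisymm (hFX F hF) (he ▸ hsF)
      · set h : (Fin d → ℝ) →ₗ[ℝ] ℝ := ∑ i ∈ F \ s, β F i with hh
        obtain ⟨ε, hε, hε2⟩ := exists_eps (X := (verts A).filter fun x => x ∉ F)
          (a := fun x => α F (p x)) (b := fun x => |h (p x)|)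
          (fun x hx => h1' F hF x (Finset.mem_filter.1 hx).1 (Finset.mem_filter.1 hx).2)
          (fun x _ => abs_nonneg _)
        refine ⟨α F - ε • h, 1, fun x hx => ?_⟩
        have hval : (α F - ε • h) (p x) = α F (p x) - ε * h (p x) := by simp
        rw [hval]
        by_cases hxs : x ∈ s
        · have hxF := hsF hxs
          have h0 : h (p x) = 0 := by
            rw [hh, LinearMap.sum_apply]
            apply Finset.sum_eq_zero
            intro i hi
            obtain ⟨hi1, hi2⟩ := Finset.mem_sdiff.1 hi
            rw [h2 F hF i hi1 x hxF, if_neg]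
            rintro rfl; exact hi2 hxs
          rw [h1 F hF x hxF, h0]
          simp [hxs]
        · by_cases hxF : x ∈ F
          · have h0 : h (p x) = 1 := by
              rw [hh, LinearMap.sum_apply, Finset.sum_eq_single x]
              · rw [h2 F hF x hxF x hxF, if_pos rfl]
              · intro i hi hix
                rw [h2 F hF i (Finset.mem_sdiff.1 hi).1 x hxF, if_neg hix]
              · intro hx'
                exact absurd (Finset.mem_sdiff.2 ⟨hxF, hxs⟩) hx'
            rw [h1 F hF x hxF, h0]
            refine ⟨by linarith, ⟨fun he => by linarith, fun hx' => absurd hx' hxs⟩⟩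
          · have := hε2 x (Finset.mem_filter.2 ⟨hx, hxF⟩)
            have h5 : -|h (p x)| ≤ h (p x) := neg_abs_le _
            have h6 : ε * (-|h (p x)|) ≤ ε * h (p x) := mul_le_mul_of_nonneg_left h5 hε.le
            have h7 : α F (p x) - ε * h (p x) < 1 := by
              linarith
            exact ⟨h7.le, ⟨fun he => by linarith, fun hx' => absurd hx' hxs⟩⟩
    · rintro ⟨hsX, hsne, f, c, hf⟩
      by_cases hs0 : s.Nonempty
      · obtain ⟨x0, hx0⟩ := hs0
        have hfne : f ≠ 0 := by
          rintro rfl
          have hc : (0 : ℝ) = c := by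
            have := (hf x0 (hsX hx0)).2.2 hx0
            simpa using this
          apply hsne
          apply Finset.Subset.antisymm hsX
          intro x hx
          exact (hf x hx).2.1 (by simpa using hc)
        obtain ⟨x1, hx1, hx1p⟩ := h4 f hfne
        have hc : 0 < c := lt_of_lt_of_le hx1p (hf x1 hx1).1
        set y : Fin d → ℝ := ∑ x ∈ s, p x with hy
        obtain ⟨F, hF, hmax⟩ := Finset.exists_max_image A (fun F => α F y) hne
        have hyF := h2' F hF y
        have hαy : ∀ g : (Fin d → ℝ) →ₗ[ℝ] ℝ, g y = ∑ i ∈ F, β F i y * g (p i) := by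
          intro g
          conv_lhs => rw [hyF]
          rw [map_sum]
          refine Finset.sum_congr rfl fun i _ => ?_
          rw [map_smul, smul_eq_mul]
        have hβ : ∀ j ∈ F, 0 ≤ β F j y := by
          intro j hj
          by_contra hneg
          push Not at hneg
          obtain ⟨F', hF', hsub, hne'⟩ := h3 F hF j hj
          have hjF' : j ∉ F' := by
            intro hjF'
            apply hne'
            symm
            apply Finset.eq_of_subset_of_card_le
            · intro z hz
              by_cases hzj : z = j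
              · rw [hzj]; exact hjF'
              · exact hsub (Finset.mem_erase.2 ⟨hzj, hz⟩)
            · rw [hcard F hF, hcard F' hF']
          have e1 := hαy (α F)
          have e2 := hαy (α F')
          have e3 : ∑ i ∈ F, β F i y * α F (p i) = ∑ i ∈ F, β F i y := by
            refine Finset.sum_congr rfl fun i hi => ?_
            rw [h1 F hF i hi, mul_one]
          have e4 : ∑ i ∈ F, β F i y * α F' (p i) =
              β F j y * α F' (p j) + ∑ i ∈ F.erase j, β F i y := by
            rw [← Finset.add_sum_erase _ _ hj]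
            congr 1
            refine Finset.sum_congr rfl fun i hi => ?_
            rw [h1 F' hF' i (hsub hi), mul_one]
          have e5 : ∑ i ∈ F, β F i y = β F j y + ∑ i ∈ F.erase j, β F i y :=
            (Finset.add_sum_erase _ _ hj).symm
          have e6 := h1' F' hF' j (hFX F hF hj) hjF'
          have e7 := hmax F' hF'
          nlinarith
        have hm : α F y = ∑ i ∈ F, β F i y := by
          rw [hαy (α F)]
          refine Finset.sum_congr rfl fun i hi => ?_
          rw [h1 F hF i hi, mul_one]
        have hα1 : ∀ x ∈ verts A, α F (p x) ≤ 1 := by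
          intro x hx
          by_cases hxF : x ∈ F
          · exact (h1 F hF x hxF).le
          · exact (h1' F hF x hx hxF).le
        have hms : α F y = ∑ x ∈ s, α F (p x) := by rw [hy, map_sum]
        have hfs : f y = s.card * c := by
          rw [hy, map_sum, Finset.sum_congr rfl fun x hx => (hf x (hsX hx)).2.2 hx]
          simp
        have hfm : f y ≤ (∑ i ∈ F, β F i y) * c := by
          rw [hαy f, Finset.sum_mul]
          exact Finset.sum_le_sum fun i hi =>
            mul_le_mul_of_nonneg_left (hf i (hFX F hF hi)).1 (hβ i hi)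
        have hge : (s.card : ℝ) ≤ ∑ x ∈ s, α F (p x) := by
          rw [← hms, hm]
          rw [hfs] at hfm
          exact le_of_mul_le_mul_right hfm hc
        have hzero : ∑ x ∈ s, (1 - α F (p x)) = 0 := by
          apply le_antisymm
          · rw [Finset.sum_sub_distrib]
            simp only [Finset.sum_const, nsmul_eq_mul, mul_one]
            linarith
          · exact Finset.sum_nonneg fun x hx => by linarith [hα1 x (hsX hx)]
        refine ⟨F, hF, fun x hx => ?_⟩
        by_contra hxF
        have hpos := (Finset.sum_eq_zero_iff_of_nonneg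
          (fun x hx => by linarith [hα1 x (hsX hx)])).1 hzero x hx
        have := h1' F hF x (hsX hx) hxF
        linarith
      · rw [Finset.not_nonempty_iff_eq_empty] at hs0
        obtain ⟨F, hF⟩ := hne
        exact ⟨F, hF, by rw [hs0]; exact Finset.empty_subset _⟩

end Pool.Q287.Ear
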