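import Pool.Agent.Q287.Ear.Poly

/-!
# Dual bases
-/

namespace Pool.Q287.Ear

variable {V : Type*} [DecidableEq V]

lemma span_of_dual {d : ℕ} (F : Finset V) (hF : F.card = d) (p : V → (Fin d → ℝ))
    (β : V → ((Fin d → ℝ) →ₗ[ℝ] ℝ))
    (h : ∀ i ∈ F, ∀ j ∈ F, β i (p j) = if i = j then 1 else 0) (z : Fin d → ℝ) :
    z = ∑ i ∈ F, β i z • p i := by
  classical
  have hli : LinearIndependent ℝ (fun i : F => p i) := by
    rw [linearIndependent_iff']
    intro s g hg i hi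
    have := congrArg (β i) hg
    rw [map_sum, map_zero, Finset.sum_eq_single i] at this
    · rw [map_smul, h i i.2 i i.2, if_pos rfl, smul_eq_mul, mul_one] at this
      exact this
    · intro j _ hji
      rw [map_smul, h i i.2 j j.2, if_neg (fun e => hji (Subtype.ext e.symm)), smul_zero]
    · intro hh; exact absurd hi hh
  have hcard : Fintype.card F = Module.finrank ℝ (Fin d → ℝ) := by simp [hF]
  have htop := hli.span_eq_top_of_card_eq_finrank' hcard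
  set T : (Fin d → ℝ) →ₗ[ℝ] (Fin d → ℝ) := ∑ i ∈ F, (β i).smulRight (p i) with hT
  have hTz : ∀ z, T z = ∑ i ∈ F, β i z • p i := by
    intro z
    rw [hT, LinearMap.sum_apply]
    rfl
  have heq : T = LinearMap.id := by
    apply LinearMap.ext_on htop
    rintro _ ⟨j, rfl⟩
    show T (p j) = p j
    rw [hTz, Finset.sum_eq_single (j : V)]
    · rw [h j j.2 j j.2, if_pos rfl, one_smul]
    · intro i hi hij
      rw [h i hi j j.2, if_neg hij, zero_smul]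
    · intro hh; exact absurd j.2 hh
  rw [← hTz, heq]
  rfl

/-- 4 × 4 determinants -/
def det4 {R : Type*} [CommRing R] (a b c e : Fin 4 → R) : R :=
  (a 0 * b 1 - a 1 * b 0) * (c 2 * e 3 - c 3 * e 2) -
  (a 0 * b 2 - a 2 * b 0) * (c 1 * e 3 - c 3 * e 1) +
  (a 0 * b 3 - a 3 * b 0) * (c 1 * e 2 - c 2 * e 1) +
  (a 1 * b 2 - a 2 * b 1) * (c 0 * e 3 - c 3 * e 0) -
  (a 1 * b 3 - a 3 * b 1) * (c 0 * e 2 - c 2 * e 0) +
  (a 2 * b 3 - a 3 * b 2) * (c 0 * e 1 - c 1 * e 0)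

/-- the determinant as a functional of its first row -/
def dl (b c e : Fin 4 → ℝ) : (Fin 4 → ℝ) →ₗ[ℝ] ℝ where
  toFun z := det4 z b c e
  map_add' x y := by simp only [det4, Pi.add_apply]; ring
  map_smul' r x := by simp only [det4, Pi.smul_apply, smul_eq_mul, RingHom.id_apply]; ring

lemma dual4 (p : ℕ → (Fin 4 → ℝ)) (a b c e : ℕ) (hab : a ≠ b) (hac : a ≠ c) (hae : a ≠ e)
    (hbc : b ≠ c) (hbe : b ≠ e) (hce : c ≠ e) (hD : det4 (p a) (p b) (p c) (p e) ≠ 0) :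
    ∃ β : ℕ → ((Fin 4 → ℝ) →ₗ[ℝ] ℝ), ∀ i ∈ ({a, b, c, e} : Finset ℕ),
      ∀ j ∈ ({a, b, c, e} : Finset ℕ), β i (p j) = if i = j then 1 else 0 := by
  set D := det4 (p a) (p b) (p c) (p e) with hDdef
  have e1 : det4 (p b) (p a) (p c) (p e) = -D := by simp only [hDdef, det4]; ring
  have e2 : det4 (p c) (p a) (p b) (p e) = D := by simp only [hDdef, det4]; ring
  have e3 : det4 (p e) (p a) (p b) (p c) = -D := by simp only [hDdef, det4]; ring
  have z1 : ∀ x y z : Fin 4 → ℝ, det4 x x y z = 0 := by intro x y z; simp only [det4]; ring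
  have z2 : ∀ x y z : Fin 4 → ℝ, det4 x y x z = 0 := by intro x y z; simp only [det4]; ring
  have z3 : ∀ x y z : Fin 4 → ℝ, det4 x y z x = 0 := by intro x y z; simp only [det4]; ring
  refine ⟨fun i => if i = a then (1 / D) • dl (p b) (p c) (p e) else
    if i = b then (-1 / D) • dl (p a) (p c) (p e) else
    if i = c then (1 / D) • dl (p a) (p b) (p e) else (-1 / D) • dl (p a) (p b) (p c), ?_⟩
  have hv : ∀ x y z w : Fin 4 → ℝ, ∀ r : ℝ, (r • dl y z w) x = r * det4 x y z w :=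
    fun _ _ _ _ _ => rfl
  intro i hi j hj
  simp only [Finset.mem_insert, Finset.mem_singleton] at hi hj
  rcases hi with rfl | rfl | rfl | rfl <;> rcases hj with rfl | rfl | rfl | rfl <;>
    simp only [hab, hac, hae, hbc, hbe, hce, hab.symm, hac.symm, hae.symm, hbc.symm, hbe.symm,
      hce.symm, if_true, if_false, hv, z1, z2, z3, e1, e2, e3, ← hDdef, mul_zero] <;>
    field_simp

theorem polytope_of' {d : ℕ} (hd : 0 < d) (A : Finset (Finset V)) (hne : A.Nonempty)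
    (hcard : ∀ F ∈ A, F.card = d) (p : V → (Fin d → ℝ))
    (h1 : ∀ F ∈ A, ∃ α : (Fin d → ℝ) →ₗ[ℝ] ℝ, (∀ x ∈ F, α (p x) = 1) ∧
      ∀ x ∈ verts A, x ∉ F → α (p x) < 1)
    (h2 : ∀ F ∈ A, ∃ β : V → ((Fin d → ℝ) →ₗ[ℝ] ℝ),
      ∀ i ∈ F, ∀ j ∈ F, β i (p j) = if i = j then 1 else 0)
    (h3 : ∀ F ∈ A, ∀ j ∈ F, ∃ F' ∈ A, F.erase j ⊆ F' ∧ F' ≠ F)
    (h4 : ∀ f : (Fin d → ℝ) →ₗ[ℝ] ℝ, f ≠ 0 → ∃ x ∈ verts A, 0 < f (p x)) :
    IsPolytopeBoundary d A := by
  classical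
  have h1' : ∀ F : Finset V, ∃ α : (Fin d → ℝ) →ₗ[ℝ] ℝ, F ∈ A → (∀ x ∈ F, α (p x) = 1) ∧
      ∀ x ∈ verts A, x ∉ F → α (p x) < 1 := by
    intro F
    by_cases hF : F ∈ A
    · obtain ⟨α, h⟩ := h1 F hF; exact ⟨α, fun _ => h⟩
    · exact ⟨0, fun h => absurd h hF⟩
  have h2' : ∀ F : Finset V, ∃ β : V → ((Fin d → ℝ) →ₗ[ℝ] ℝ), F ∈ A →
      ∀ i ∈ F, ∀ j ∈ F, β i (p j) = if i = j then 1 else 0 := by
    intro F
    by_cases hF : F ∈ A
    · obtain ⟨β, h⟩ := h2 F hF; exact ⟨β, fun _ => h⟩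
    · exact ⟨0, fun h => absurd h hF⟩
  choose α hα using h1'
  choose β hβ using h2'
  exact polytope_of hd A hne hcard p α β (fun F hF => (hα F hF).1) (fun F hF => (hα F hF).2)
    (fun F hF => hβ F hF) (fun F hF => span_of_dual F (hcard F hF) p (β F) (hβ F hF)) h3 h4

end Pool.Q287.Ear
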