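import Pool.Agent.Q287.Ear.Data2
import Pool.Agent.Q287.Ear.Check2
import Pool.Agent.Q287.Ear.Poly2

/-!
# Checks for the explicit polytope
-/

namespace Pool.Q287.Ear

/-- scalar product of the normal of facet `i` with vertex `x` -/
def dotz (i x : ℕ) : ℤ := nz i 0 * pz x 0 + (nz i 1 * pz x 1 + (nz i 2 * pz x 2 + nz i 3 * pz x 3))

lemma ck_facet : allB 224 (fun i => allB 46 fun x =>
    if inL i x then decide (dotz i x = nz i 4) else decide (dotz i x < nz i 4)) = true := by
  decide +kernel

lemma ck_pos : allB 224 (fun i => decide (0 < nz i 4)) = true := by decide +kernel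

/-- integer points -/
def pzf (v : ℕ) : Fin 4 → ℤ := fun k => pz v k.val

/-- expansion of the determinant for the kernel -/
def dd (a b c e : ℕ) : ℤ :=
  (pz a 0 * pz b 1 - pz a 1 * pz b 0) * (pz c 2 * pz e 3 - pz c 3 * pz e 2) -
  (pz a 0 * pz b 2 - pz a 2 * pz b 0) * (pz c 1 * pz e 3 - pz c 3 * pz e 1) +
  (pz a 0 * pz b 3 - pz a 3 * pz b 0) * (pz c 1 * pz e 2 - pz c 2 * pz e 1) +
  (pz a 1 * pz b 2 - pz a 2 * pz b 1) * (pz c 0 * pz e 3 - pz c 3 * pz e 0) -
  (pz a 1 * pz b 3 - pz a 3 * pz b 1) * (pz c 0 * pz e 2 - pz c 2 * pz e 0) +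
  (pz a 2 * pz b 3 - pz a 3 * pz b 2) * (pz c 0 * pz e 1 - pz c 1 * pz e 0)

lemma ck_det : allB 224 (fun i => decide (dd (vv i 0) (vv i 1) (vv i 2) (vv i 3) ≠ 0)) = true := by
  decide +kernel

lemma ck_nq : allB 224 (fun i => allB 4 fun k =>
    frc (nq i k) fun j => Nat.blt j 224 && shr i k j) = true := by decide +kernel

lemma ck_vv : allB 224 (fun i => allB 4 fun k => Nat.blt (vv i k) 46) = true := by decide +kernel

lemma ck_zero : allB 4 (fun k => decide ((892265140832256692321 : ℤ) * pz 19 k +
    (353578304240445986985 * pz 8 k + (214881995353753722479 * pz 9 k +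
    (750735239310945 * pz 21 k + 317085844262728576356 * pz 25 k))) = 0)) = true := by
  decide +kernel

lemma ck_79 : LL 79 = [8, 9, 21, 25] := by decide +kernel

lemma ck_19 : ∃ i < 224, 19 ∈ LL i := by
  have : (allB 224 fun i => !inL i 19) = false := by decide +kernel
  by_contra hcon
  push Not at hcon
  have h2 : (allB 224 fun i => !inL i 19) = true := by
    have : ∀ m ≤ 224, (allB m fun i => !inL i 19) = true := by
      intro m
      induction m with
      | zero => intro _; rfl
      | succ m ih =>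
        intro hm
        simp only [allB, Bool.and_eq_true, Bool.not_eq_true']
        refine ⟨?_, ih (by omega)⟩
        rw [← Bool.not_eq_true, inL_iff]
        exact hcon m (by omega)
    exact this 224 le_rfl
  rw [this] at h2
  exact Bool.false_ne_true h2

lemma ck_inj : allB 224 (fun i => allB 224 fun j => Nat.beq i j || Nat.blt (cnt i j) 4) = true := by
  decide +kernel

end Pool.Q287.Ear
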