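import Pool.Agent.Q287.Ear.PolyCheck
import Pool.Agent.Q287.Ear.BallOK

/-!
# The explicit simplicial polytope
-/

namespace Pool.Q287.Ear

/-- facet `i` -/
def fq (i : ℕ) : Finset ℕ := (LL i).toFinset

/-- the facets of the polytope -/
def QQ : Finset (Finset ℕ) := (Finset.range 224).image fq

lemma mem_fq {i x : ℕ} : x ∈ fq i ↔ x ∈ LL i := by simp [fq]

/-- small type class friendly version -/
lemma fq_def (i : ℕ) : fq i = (LL i).toFinset := rfl

lemma mem_QQ {F : Finset ℕ} : F ∈ QQ ↔ ∃ i < 224, fq i = F := by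
  simp [QQ]

attribute [irreducible] QQ

lemma get_facet (i x : ℕ) (hi : i < 224) (hx : x < 46) :
    (if inL i x then decide (dotz i x = nz i 4) else decide (dotz i x < nz i 4)) = true := by
  have h1 := allB_iff ck_facet i hi
  exact allB_iff h1 x hx

lemma get_pos (i : ℕ) (hi : i < 224) : 0 < nz i 4 := by
  have h1 := allB_iff ck_pos i hi
  exact of_decide_eq_true h1

lemma get_vv (i k : ℕ) (hi : i < 224) (hk : k < 4) : vv i k < 46 := by
  have h1 := allB_iff ck_vv i hi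
  have h2 := allB_iff h1 k hk
  rwa [Nat.blt_eq] at h2

lemma get_zero (k : ℕ) (hk : k < 4) : (892265140832256692321 : ℤ) * pz 19 k +
    (353578304240445986985 * pz 8 k + (214881995353753722479 * pz 9 k +
    (750735239310945 * pz 21 k + 317085844262728576356 * pz 25 k))) = 0 := by
  have h1 := allB_iff ck_zero k hk
  exact of_decide_eq_true h1

lemma fq_card {i : ℕ} (hi : i < 224) : (fq i).card = 4 := by
  unfold fq
  rw [List.toFinset_card_of_nodup (ck_nodup' i hi)]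
  rfl

lemma vv_inj {i : ℕ} (hi : i < 224) {k l : ℕ} (hk : k < 4) (hl : l < 4) (h : vv i k = vv i l) :
    k = l := by
  have h0 := allB_iff ck_inc i hi
  simp only [Bool.and_eq_true, Nat.blt_eq] at h0
  obtain ⟨h1, h2, h3⟩ := h0
  rcases (by omega : k = 0 ∨ k = 1 ∨ k = 2 ∨ k = 3) with e | e | e | e <;>
  rcases (by omega : l = 0 ∨ l = 1 ∨ l = 2 ∨ l = 3) with e' | e' | e' | e' <;>
  subst e <;> subst e' <;> omega

lemma fq_inj {i j : ℕ} (hi : i < 224) (hj : j < 224) (h : fq i = fq j) : i = j := by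
  have h1 := allB_iff (allB_iff ck_inj i hi) j hj
  by_contra hij
  rw [beq_false_of_ne hij, Bool.false_or, Nat.blt_eq, cnt_eq] at h1
  have : (LL i).filter (· ∈ LL j) = LL i := by
    rw [List.filter_eq_self]
    intro x hx
    have : x ∈ fq j := by rw [← h]; exact mem_fq.2 hx
    simpa using mem_fq.1 this
  rw [this] at h1
  simp [LL_eq] at h1

lemma shr_nq {i k : ℕ} (hi : i < 224) (hk : k < 4) : nq i k < 224 ∧
    ∀ l < 4, (l = k → vv i l ∉ LL (nq i k)) ∧ (l ≠ k → vv i l ∈ LL (nq i k)) := by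
  have h := allB_iff (allB_iff ck_nq i hi) k hk
  rw [frc_eq, Bool.and_eq_true, Nat.blt_eq] at h
  refine ⟨h.1, fun l hl => ?_⟩
  have h2 := allB_iff h.2 l hl
  refine ⟨fun hlk => ?_, fun hlk => ?_⟩
  · subst hlk
    have : Nat.beq l l = true := Nat.beq_refl l
    rw [if_pos this] at h2
    rw [← inLf]; simpa using h2
  · rw [if_neg (by rw [beq_false_of_ne hlk]; simp)] at h2
    rwa [inL_iff] at h2

/-- the points -/
noncomputable def pr (v : ℕ) : Fin 4 → ℝ := fun k => (pz v k.val : ℝ)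

lemma det_pr (a b c e : ℕ) : det4 (pr a) (pr b) (pr c) (pr e) = (dd a b c e : ℝ) := by
  simp only [det4, pr, dd, Fin.val_zero, Fin.val_one, Fin.val_two,
    show ((3 : Fin 4) : ℕ) = 3 from rfl]
  push_cast
  ring

lemma fq_eq (i : ℕ) : fq i = {vv i 0, vv i 1, vv i 2, vv i 3} := by
  ext x
  rw [mem_fq, LL_eq]
  simp

lemma mem_fq' {i x : ℕ} : x ∈ fq i ↔ ∃ l < 4, x = vv i l := by
  rw [mem_fq, mem_LL]

lemma dual_fq {i : ℕ} (hi : i < 224) : ∃ β : ℕ → ((Fin 4 → ℝ) →ₗ[ℝ] ℝ),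
    ∀ x ∈ fq i, ∀ y ∈ fq i, β x (pr y) = if x = y then 1 else 0 := by
  rw [fq_eq]
  apply dual4
  · intro h; exact absurd (vv_inj hi (by omega) (by omega) h) (by omega)
  · intro h; exact absurd (vv_inj hi (by omega) (by omega) h) (by omega)
  · intro h; exact absurd (vv_inj hi (by omega) (by omega) h) (by omega)
  · intro h; exact absurd (vv_inj hi (by omega) (by omega) h) (by omega)
  · intro h; exact absurd (vv_inj hi (by omega) (by omega) h) (by omega)
  · intro h; exact absurd (vv_inj hi (by omega) (by omega) h) (by omega)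
  · rw [det_pr]
    have := allB_iff ck_det i hi
    rw [decide_eq_true_eq] at this
    exact_mod_cast this

lemma verts_lt {x : ℕ} (hx : x ∈ verts QQ) : x < 46 := by
  obtain ⟨F, hF, hxF⟩ := mem_verts.1 hx
  obtain ⟨i, hi, rfl⟩ := mem_QQ.1 hF
  obtain ⟨l, hl, rfl⟩ := mem_fq'.1 hxF
  exact get_vv i l hi hl

/-- the supporting functional of facet `i` -/
noncomputable def al (i : ℕ) : (Fin 4 → ℝ) →ₗ[ℝ] ℝ :=
  (1 / (nz i 4 : ℝ)) • ∑ k : Fin 4, (nz i k.val : ℝ) • LinearMap.proj k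

lemma al_pr (i x : ℕ) : al i (pr x) = (dotz i x : ℝ) / (nz i 4 : ℝ) := by
  have h : al i (pr x) = (1 / (nz i 4 : ℝ)) * ((nz i 0 : ℝ) * (pz x 0 : ℝ) +
      (nz i 1 : ℝ) * (pz x 1 : ℝ) + (nz i 2 : ℝ) * (pz x 2 : ℝ) + (nz i 3 : ℝ) * (pz x 3 : ℝ)) := by
    unfold al
    rw [LinearMap.smul_apply, LinearMap.sum_apply, Fin.sum_univ_four]
    rfl
  rw [h]
  unfold dotz
  push_cast
  ring

theorem poly_QQ : IsPolytopeBoundary 4 QQ := by
  refine polytope_of' (by norm_num) QQ ⟨fq 0, mem_QQ.2 ⟨0, by norm_num, rfl⟩⟩ ?_ pr ?_ ?_ ?_ ?_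
  · intro F hF
    obtain ⟨i, hi, rfl⟩ := mem_QQ.1 hF
    exact fq_card hi
  · intro F hF
    obtain ⟨i, hi, rfl⟩ := mem_QQ.1 hF
    have hpos := get_pos i hi
    have hpos' : (0 : ℝ) < (nz i 4 : ℝ) := by exact_mod_cast hpos
    refine ⟨al i, fun x hx => ?_, fun x hx hxF => ?_⟩
    · have h46 : x < 46 := verts_lt (mem_verts.2 ⟨_, hF, hx⟩)
      have h := get_facet i x hi h46
      rw [if_pos ((inL_iff _ _).2 (mem_fq.1 hx)), decide_eq_true_eq] at h
      rw [al_pr, h, div_self hpos'.ne']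
    · have h46 : x < 46 := verts_lt hx
      have h := get_facet i x hi h46
      rw [if_neg (fun h => hxF (mem_fq.2 ((inL_iff _ _).1 h))), decide_eq_true_eq] at h
      rw [al_pr, div_lt_one hpos']
      exact_mod_cast h
  · intro F hF
    obtain ⟨i, hi, rfl⟩ := mem_QQ.1 hF
    exact dual_fq hi
  · intro F hF j hj
    obtain ⟨i, hi, rfl⟩ := mem_QQ.1 hF
    obtain ⟨k, hk, rfl⟩ := mem_fq'.1 hj
    obtain ⟨h1, h2⟩ := shr_nq hi hk
    refine ⟨fq (nq i k), mem_QQ.2 ⟨_, h1, rfl⟩, ?_, ?_⟩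
    · intro z hz
      obtain ⟨hz1, hz2⟩ := Finset.mem_erase.1 hz
      obtain ⟨l, hl, rfl⟩ := mem_fq'.1 hz2
      exact mem_fq.2 ((h2 l hl).2 (fun h => hz1 (by rw [h])))
    · intro h
      apply (h2 k hk).1 rfl
      rw [← mem_fq, h]
      exact mem_fq'.2 ⟨k, hk, rfl⟩
  · intro f hf
    by_contra hcon
    push Not at hcon
    have m79 : ∀ x ∈ fq 79, x ∈ verts QQ := fun x hx =>
      mem_verts.2 ⟨fq 79, mem_QQ.2 ⟨79, by norm_num, rfl⟩, hx⟩
    have hmem : ∀ x, x ∈ fq 79 ↔ (x = 8 ∨ x = 9 ∨ x = 21 ∨ x = 25) := by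
      intro x
      rw [mem_fq, ck_79]
      simp
    have m19 : (19 : ℕ) ∈ verts QQ := by
      obtain ⟨i, hi, h⟩ := ck_19
      exact mem_verts.2 ⟨fq i, mem_QQ.2 ⟨i, hi, rfl⟩, mem_fq.2 h⟩
    have hz : (892265140832256692321 : ℝ) • pr 19 + ((353578304240445986985 : ℝ) • pr 8 +
        ((214881995353753722479 : ℝ) • pr 9 + ((750735239310945 : ℝ) • pr 21 +
        (317085844262728576356 : ℝ) • pr 25))) = 0 := by
      ext k
      have := get_zero k.val k.isLt
      simp only [Pi.add_apply, Pi.smul_apply, smul_eq_mul, pr, Pi.zero_apply]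
      exact_mod_cast this
    have hfz := congrArg f hz
    simp only [map_add, map_smul, map_zero, smul_eq_mul] at hfz
    have b19 := hcon 19 m19
    have b8 := hcon 8 (m79 8 ((hmem 8).2 (by simp)))
    have b9 := hcon 9 (m79 9 ((hmem 9).2 (by simp)))
    have b21 := hcon 21 (m79 21 ((hmem 21).2 (by simp)))
    have b25 := hcon 25 (m79 25 ((hmem 25).2 (by simp)))
    have c8 : f (pr 8) = 0 := by nlinarith
    have c9 : f (pr 9) = 0 := by nlinarith
    have c21 : f (pr 21) = 0 := by nlinarith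
    have c25 : f (pr 25) = 0 := by nlinarith
    apply hf
    obtain ⟨β, hβ⟩ := dual_fq (i := 79) (by norm_num)
    apply LinearMap.ext
    intro z
    rw [span_of_dual (fq 79) (fq_card (by norm_num)) pr β hβ z, map_sum, LinearMap.zero_apply]
    apply Finset.sum_eq_zero
    intro x hx
    rw [map_smul]
    rcases (hmem x).1 hx with rfl | rfl | rfl | rfl
    · rw [c8, smul_zero]
    · rw [c9, smul_zero]
    · rw [c21, smul_zero]
    · rw [c25, smul_zero]

end Pool.Q287.Ear
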