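import Pool.Agent.Q287.Ear.Defs

/-!
# Relabelling of vertices
-/

namespace Pool.Q287.Ear

/-- relabelling a family -/
def rel (φ : ℕ ↪ ℕ) (A : Finset (Finset ℕ)) : Finset (Finset ℕ) :=
  A.map (Finset.mapEmbedding φ).toEmbedding

variable {φ : ℕ ↪ ℕ}

lemma mem_rel {A : Finset (Finset ℕ)} {G : Finset ℕ} : G ∈ rel φ A ↔ ∃ F ∈ A, F.map φ = G := by
  simp [rel, Finset.mapEmbedding_apply]

lemma map_mem_rel {A : Finset (Finset ℕ)} {F : Finset ℕ} : F.map φ ∈ rel φ A ↔ F ∈ A := by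
  rw [mem_rel]
  constructor
  · rintro ⟨G, hG, h⟩
    rwa [← Finset.map_injective φ h]
  · intro h; exact ⟨F, h, rfl⟩

lemma map_mem_cx {A : Finset (Finset ℕ)} {s : Finset ℕ} : s.map φ ∈ cx (rel φ A) ↔ s ∈ cx A := by
  constructor
  · rintro ⟨G, hG, h⟩
    obtain ⟨F, hF, rfl⟩ := mem_rel.1 hG
    exact ⟨F, hF, Finset.map_subset_map.1 h⟩
  · rintro ⟨F, hF, h⟩
    exact ⟨F.map φ, map_mem_rel.2 hF, Finset.map_subset_map.2 h⟩

lemma mem_cx_rel {A : Finset (Finset ℕ)} {t : Finset ℕ} (h : t ∈ cx (rel φ A)) :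
    ∃ s ∈ cx A, t = s.map φ := by
  obtain ⟨G, hG, h⟩ := h
  obtain ⟨F, hF, rfl⟩ := mem_rel.1 hG
  obtain ⟨u, hu, rfl⟩ := Finset.subset_map_iff.1 h
  exact ⟨u, ⟨F, hF, hu⟩, rfl⟩

lemma filter_rel {A : Finset (Finset ℕ)} {s : Finset ℕ} :
    ((rel φ A).filter fun F => s.map φ ⊆ F) = rel φ (A.filter fun F => s ⊆ F) := by
  ext G
  simp only [Finset.mem_filter, mem_rel]
  constructor
  · rintro ⟨⟨F, hF, rfl⟩, h⟩
    exact ⟨F, ⟨hF, Finset.map_subset_map.1 h⟩, rfl⟩
  · rintro ⟨F, ⟨hF, h⟩, rfl⟩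
    exact ⟨⟨F, hF, rfl⟩, Finset.map_subset_map.2 h⟩

lemma mem_bd {V : Type*} [DecidableEq V] {d : ℕ} {A : Finset (Finset V)} {t : Finset V} :
    t ∈ bd d A ↔ (∃ F ∈ A, t ⊆ F ∧ t.card = d - 1) ∧ (A.filter fun F => t ⊆ F).card = 1 := by
  simp [bd, Finset.mem_powersetCard]

lemma bd_rel {d : ℕ} {A : Finset (Finset ℕ)} : bd d (rel φ A) = rel φ (bd d A) := by
  ext t
  constructor
  · intro ht
    obtain ⟨⟨G, hG, htG, hc⟩, h1⟩ := mem_bd.1 ht
    obtain ⟨F, hF, rfl⟩ := mem_rel.1 hG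
    obtain ⟨u, hu, rfl⟩ := Finset.subset_map_iff.1 htG
    rw [map_mem_rel, mem_bd]
    rw [Finset.card_map] at hc
    rw [filter_rel] at h1
    exact ⟨⟨F, hF, hu, hc⟩, by simpa [rel] using h1⟩
  · intro ht
    obtain ⟨s, hs, rfl⟩ := mem_rel.1 ht
    obtain ⟨⟨F, hF, hsF, hc⟩, h1⟩ := mem_bd.1 hs
    rw [mem_bd]
    refine ⟨⟨F.map φ, map_mem_rel.2 hF, Finset.map_subset_map.2 hsF, by rw [Finset.card_map, hc]⟩, ?_⟩
    rw [filter_rel]
    simpa [rel] using h1

lemma verts_rel {A : Finset (Finset ℕ)} : verts (rel φ A) = (verts A).map φ := by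
  ext v
  simp only [verts, Finset.mem_biUnion, mem_rel, id, Finset.mem_map]
  constructor
  · rintro ⟨G, ⟨F, hF, rfl⟩, hv⟩
    obtain ⟨w, hw, rfl⟩ := Finset.mem_map.1 hv
    exact ⟨w, ⟨F, hF, hw⟩, rfl⟩
  · rintro ⟨w, ⟨F, hF, hw⟩, rfl⟩
    exact ⟨F.map φ, ⟨F, hF, rfl⟩, Finset.mem_map_of_mem φ hw⟩

lemma polytope_rel {d : ℕ} {A : Finset (Finset ℕ)} (h : IsPolytopeBoundary d A) :
    IsPolytopeBoundary d (rel φ A) := by
  obtain ⟨hc, p, h1, h2⟩ := h
  have hinv : ∀ x, Function.invFun φ (φ x) = x := Function.leftInverse_invFun φ.injective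
  refine ⟨?_, fun v => p (Function.invFun φ v), ?_, ?_⟩
  · intro G hG
    obtain ⟨F, hF, rfl⟩ := mem_rel.1 hG
    rw [Finset.card_map, hc F hF]
  · intro f hf
    apply h1 f
    intro x hx y hy
    have := hf (φ x) (by rw [verts_rel]; exact Finset.mem_map_of_mem φ hx) (φ y)
      (by rw [verts_rel]; exact Finset.mem_map_of_mem φ hy)
    simpa only [hinv] using this
  · have key : ∀ s : Finset ℕ, IsProperFace (fun v => p (Function.invFun φ v))
        ((verts A).map φ) (s.map φ) ↔ IsProperFace p (verts A) s := by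
      intro s
      unfold IsProperFace
      rw [Finset.map_subset_map, Ne, (Finset.map_injective φ).eq_iff]
      refine and_congr_right fun _ => and_congr_right fun _ => ?_
      refine exists_congr fun f => exists_congr fun c => ?_
      constructor
      · intro h x hx
        have := h (φ x) (Finset.mem_map_of_mem φ hx)
        simpa only [hinv, Finset.mem_map'] using this
      · intro h y hy
        obtain ⟨x, hx, rfl⟩ := Finset.mem_map.1 hy
        have := h x hx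
        simpa only [hinv, Finset.mem_map'] using this
    intro t
    rw [verts_rel]
    constructor
    · intro ht
      obtain ⟨s, hs, rfl⟩ := mem_cx_rel ht
      exact (key s).2 ((h2 s).1 hs)
    · intro ht
      obtain ⟨s, hs, rfl⟩ := Finset.subset_map_iff.1 ht.1
      exact map_mem_cx.2 ((h2 s).2 ((key s).1 ht))

lemma ball_rel {d : ℕ} {A : Finset (Finset ℕ)} (h : IsBall d A) : IsBall d (rel φ A) := by
  induction h with
  | simplex F hF =>
    have : rel φ {F} = {F.map φ} := by simp [rel, Finset.mapEmbedding_apply]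
    rw [this]
    exact IsBall.simplex _ (by rw [Finset.card_map, hF])
  | glue A F T _ hc hF hT hTs hTb hi ih =>
    have : rel φ (insert F A) = insert (F.map φ) (rel φ A) := by
      simp [rel, Finset.mapEmbedding_apply]
    rw [this]
    refine IsBall.glue _ _ (rel φ T) ih (by rw [Finset.card_map, hc]) ?_ ?_ ?_ ?_ ?_
    · rwa [map_mem_rel]
    · obtain ⟨t, ht⟩ := hT
      exact ⟨_, map_mem_rel.2 ht⟩
    · rw [Finset.powersetCard_map]
      exact Finset.map_ssubset_map.2 hTs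
    · rw [bd_rel]
      exact Finset.map_subset_map.2 hTb
    · intro s hs
      obtain ⟨u, hu, rfl⟩ := Finset.subset_map_iff.1 hs
      rw [map_mem_cx, map_mem_cx]
      exact hi u hu
  | remove A F T _ hF hT hTs hi ih =>
    have : rel φ (A.erase F) = (rel φ A).erase (F.map φ) := by
      ext G
      simp only [Finset.mem_erase, mem_rel]
      constructor
      · rintro ⟨F', ⟨h1, h2⟩, rfl⟩
        exact ⟨fun h => h1 (Finset.map_injective φ h), F', h2, rfl⟩
      · rintro ⟨h1, F', h2, rfl⟩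
        exact ⟨F', ⟨fun h => h1 (by rw [h]), h2⟩, rfl⟩
    rw [this]
    refine IsBall.remove _ _ (rel φ T) ih (map_mem_rel.2 hF) ?_ ?_ ?_
    · obtain ⟨t, ht⟩ := hT
      exact ⟨_, map_mem_rel.2 ht⟩
    · rw [Finset.powersetCard_map]
      exact Finset.map_ssubset_map.2 hTs
    · intro s hs
      obtain ⟨u, hu, rfl⟩ := Finset.subset_map_iff.1 hs
      rw [bd_rel, map_mem_cx, map_mem_cx]
      exact hi u hu

end Pool.Q287.Ear
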